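import Mathlib

/-!
# Comparison selection: knowledge states, the game `Win`, and its basic lemmas

`R a b` is read: it is known that `a < b`.  `Win t X f R b` says that an algorithm which knows the
order relations `R` on the finite set `X` can find the `t`-th largest element of `X` so that the
number of comparisons plus `f T` is at most `b`, where `T` is the set of the `t - 1` largest
elements.
-/

namespace Pool.Agent.Sel

set_option linter.unusedSectionVars false

open Finset

variable {ι : Type*} [DecidableEq ι]

/-- The relation `R` together with `x < y`, transitively closed. -/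
def add (R : ι → ι → Prop) (x y : ι) : ι → ι → Prop :=
  fun a b => R a b ∨ ((a = x ∨ R a x) ∧ (b = y ∨ R y b))

/-- Strict partial orders. -/
structure SO (R : ι → ι → Prop) : Prop where
  irr : ∀ a, ¬ R a a
  tr : ∀ a b c, R a b → R b c → R a c

theorem SO.asymm {R : ι → ι → Prop} (h : SO R) {a b : ι} (h1 : R a b) (h2 : R b a) : False :=
  h.irr a (h.tr _ _ _ h1 h2)

theorem add_tr {R : ι → ι → Prop} (h : ∀ a b c, R a b → R b c → R a c) (x y : ι) :
    ∀ a b c, add R x y a b → add R x y b c → add R x y a c := by
  intro a b c h1 h2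
  rcases h1 with h1 | ⟨h1, h1'⟩
  · rcases h2 with h2 | ⟨h2, h2'⟩
    · exact Or.inl (h _ _ _ h1 h2)
    · right
      refine ⟨?_, h2'⟩
      rcases h2 with rfl | h2
      · exact Or.inr h1
      · exact Or.inr (h _ _ _ h1 h2)
  · rcases h2 with h2 | ⟨h2, h2'⟩
    · right
      refine ⟨h1, ?_⟩
      rcases h1' with rfl | h1'
      · exact Or.inr h2
      · exact Or.inr (h _ _ _ h1' h2)
    · exact Or.inr ⟨h1, h2'⟩

theorem SO.add {R : ι → ι → Prop} (h : SO R) {x y : ι} (hxy : x ≠ y) (hyx : ¬ R y x) :
    SO (add R x y) := by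
  refine ⟨?_, add_tr h.tr x y⟩
  rintro a (h1 | ⟨h1, h2⟩)
  · exact h.irr a h1
  · rcases h1 with rfl | h1
    · rcases h2 with h2 | h2
      · exact hxy h2
      · exact hyx h2
    · rcases h2 with rfl | h2
      · exact hyx h1
      · exact hyx (h.tr _ _ _ h2 h1)

theorem le_add (R : ι → ι → Prop) (x y : ι) {a b : ι} (h : R a b) : add R x y a b := Or.inl h

theorem add_self (R : ι → ι → Prop) (x y : ι) : add R x y x y := Or.inr ⟨Or.inl rfl, Or.inl rfl⟩

theorem add_mono {X : Finset ι} {R R' : ι → ι → Prop} (h : ∀ a ∈ X, ∀ b ∈ X, R a b → R' a b)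
    {x y : ι} (hx : x ∈ X) (hy : y ∈ X) :
    ∀ a ∈ X, ∀ b ∈ X, add R x y a b → add R' x y a b := by
  intro a ha b hb hab
  rcases hab with h1 | ⟨h1, h2⟩
  · exact Or.inl (h a ha b hb h1)
  · right
    refine ⟨?_, ?_⟩
    · rcases h1 with h1 | h1
      · exact Or.inl h1
      · exact Or.inr (h a ha x hx h1)
    · rcases h2 with h2 | h2
      · exact Or.inl h2
      · exact Or.inr (h y hy b hb h2)

/-- If `x < y` is already known then adding it changes nothing. -/
theorem add_of_rel {R : ι → ι → Prop} (htr : ∀ a b c, R a b → R b c → R a c) {x y : ι}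
    (hxy : R x y) {a b : ι} (hab : add R x y a b) : R a b := by
  rcases hab with h | ⟨h1, h2⟩
  · exact h
  · rcases h1 with rfl | h1
    · rcases h2 with rfl | h2
      · exact hxy
      · exact htr _ _ _ hxy h2
    · rcases h2 with rfl | h2
      · exact htr _ _ _ h1 hxy
      · exact htr _ _ _ h1 (htr _ _ _ hxy h2)

/-- The algorithm's game.  `Win t X f R b`: from the knowledge `R` on `X` the `t`-th largest element
of `X` can be found with (number of comparisons) `+ f T ≤ b`. -/
inductive Win (t : ℕ) (X : Finset ι) (f : Finset ι → ℕ) : (ι → ι → Prop) → ℕ → Prop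
  | done {R : ι → ι → Prop} {b : ℕ} (c : ι) (T : Finset ι) (hc : c ∈ X) (hTX : T ⊆ X)
      (hcT : c ∉ T) (hT : T.card + 1 = t) (hR : ∀ x ∈ T, R c x)
      (hB : ∀ x ∈ X, x ≠ c → x ∉ T → R x c) (hf : f T ≤ b) : Win t X f R b
  | ask {R : ι → ι → Prop} {b : ℕ} (x y : ι) (hx : x ∈ X) (hy : y ∈ X) (hxy : x ≠ y)
      (h1 : Win t X f (add R x y) b) (h2 : Win t X f (add R y x) b) : Win t X f R (b + 1)

/-- `T` is an up-set of `X` with `t - 1` elements. -/
structure Up (t : ℕ) (X : Finset ι) (R : ι → ι → Prop) (T : Finset ι) : Prop where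
  sub : T ⊆ X
  card : T.card + 1 = t
  up : ∀ a ∈ T, ∀ b ∈ X, R a b → b ∈ T

theorem Up.anti {t : ℕ} {X T : Finset ι} {R R' : ι → ι → Prop} (h : Up t X R' T)
    (hR : ∀ a ∈ X, ∀ b ∈ X, R a b → R' a b) : Up t X R T :=
  ⟨h.sub, h.card, fun a ha b hb hab => h.up a ha b hb (hR a (h.sub ha) b hb hab)⟩

/-- Monotonicity in the budget. -/
theorem Win.mono_b {t : ℕ} {X : Finset ι} {f : Finset ι → ℕ} {R : ι → ι → Prop} {b : ℕ}
    (h : Win t X f R b) : ∀ b', b ≤ b' → Win t X f R b' := by
  induction h with
  | done c T hc hTX hcT hT hR hB hf =>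
    intro b' hb
    exact .done c T hc hTX hcT hT hR hB (hf.trans hb)
  | ask x y hx hy hxy h1 h2 ih1 ih2 =>
    intro b' hb
    obtain ⟨b'', rfl⟩ : ∃ b'', b' = b'' + 1 := ⟨b' - 1, by omega⟩
    exact .ask x y hx hy hxy (ih1 _ (by omega)) (ih2 _ (by omega))

/-- Monotonicity in the relation (the new relation only has to be transitive). -/
theorem Win.mono_R {t : ℕ} {X : Finset ι} {f : Finset ι → ℕ} {R : ι → ι → Prop} {b : ℕ}
    (h : Win t X f R b) : ∀ R' : ι → ι → Prop, (∀ a b c, R' a b → R' b c → R' a c) →
      (∀ a ∈ X, ∀ b ∈ X, R a b → R' a b) → Win t X f R' b := by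
  induction h with
  | done c T hc hTX hcT hT hR hB hf =>
    intro R' _ hRR
    exact .done c T hc hTX hcT hT (fun x hx => hRR _ hc _ (hTX hx) (hR x hx))
      (fun x hx h1 h2 => hRR _ hx _ hc (hB x hx h1 h2)) hf
  | ask x y hx hy hxy h1 h2 ih1 ih2 =>
    intro R' htr hRR
    exact .ask x y hx hy hxy (ih1 _ (add_tr htr x y) (add_mono hRR hx hy))
      (ih2 _ (add_tr htr y x) (add_mono hRR hy hx))

/-- If `x < y` is known already, the answer `x < y` gives nothing. -/
theorem Win.of_add {t : ℕ} {X : Finset ι} {f : Finset ι → ℕ} {R : ι → ι → Prop} {b : ℕ} {x y : ι}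
    (htr : ∀ a b c, R a b → R b c → R a c) (hxy : R x y) (h : Win t X f (add R x y) b) :
    Win t X f R b :=
  h.mono_R R htr (fun _ _ _ _ hab => add_of_rel htr hxy hab)

/-- Monotonicity in the payoff (only up-sets of size `t - 1` matter). -/
theorem Win.mono_f {t : ℕ} {X : Finset ι} {f : Finset ι → ℕ} {R : ι → ι → Prop} {b : ℕ}
    (h : Win t X f R b) : ∀ f' : Finset ι → ℕ, SO R →
      (∀ T, Up t X R T → f' T ≤ f T) → Win t X f' R b := by
  induction h with
  | done c T hc hTX hcT hT hR hB hf =>
    intro f' hSO hff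
    refine .done c T hc hTX hcT hT hR hB ((hff T ⟨hTX, hT, ?_⟩).trans hf)
    intro a ha z hz haz
    by_contra hzT
    by_cases hzc : z = c
    · subst hzc
      exact hSO.asymm (hR a ha) haz
    · exact hSO.asymm (hSO.tr _ _ _ (hR a ha) haz) (hB z hz hzc hzT)
  | ask x y hx hy hxy h1 h2 ih1 ih2 =>
    rename_i R b
    intro f' hSO hff
    by_cases hRxy : R x y
    · refine (Win.of_add hSO.tr hRxy (ih1 f' (hSO.add hxy fun h => hSO.asymm hRxy h) ?_)).mono_b
        _ (Nat.le_succ b)
      intro T hT
      exact hff T (hT.anti fun _ _ _ _ => le_add R x y)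
    · by_cases hRyx : R y x
      · refine (Win.of_add hSO.tr hRyx
          (ih2 f' (hSO.add (Ne.symm hxy) fun h => hSO.asymm hRyx h) ?_)).mono_b _ (Nat.le_succ b)
        intro T hT
        exact hff T (hT.anti fun _ _ _ _ => le_add R y x)
      · refine .ask x y hx hy hxy (ih1 f' (hSO.add hxy hRyx) ?_)
          (ih2 f' (hSO.add (Ne.symm hxy) hRxy) ?_)
        · intro T hT
          exact hff T (hT.anti fun _ _ _ _ => le_add R x y)
        · intro T hT
          exact hff T (hT.anti fun _ _ _ _ => le_add R y x)

/-- A constant may be moved between payoff and budget. -/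
theorem Win.shift {t : ℕ} {X : Finset ι} {f : Finset ι → ℕ} {R : ι → ι → Prop} {b : ℕ}
    (h : Win t X f R b) (k : ℕ) : Win t X (fun T => f T + k) R (b + k) := by
  induction h with
  | done c T hc hTX hcT hT hR hB hf =>
    exact .done c T hc hTX hcT hT hR hB (by simpa using hf)
  | ask x y hx hy hxy h1 h2 ih1 ih2 =>
    rename_i R b
    have : b + 1 + k = (b + k) + 1 := by omega
    rw [this]
    exact .ask x y hx hy hxy ih1 ih2

/-- The converse of `Win.shift`. -/
theorem Win.unshift {t : ℕ} {X : Finset ι} {f g : Finset ι → ℕ} {R : ι → ι → Prop} {b : ℕ} {k : ℕ}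
    (h : Win t X g R b) (hg : ∀ T, g T = f T + k) : k ≤ b ∧ Win t X f R (b - k) := by
  induction h with
  | done c T hc hTX hcT hT hR hB hf =>
    rw [hg] at hf
    exact ⟨by omega, .done c T hc hTX hcT hT hR hB (by omega)⟩
  | ask x y hx hy hxy h1 h2 ih1 ih2 =>
    rename_i R b
    obtain ⟨hk, hw1⟩ := ih1
    obtain ⟨_, hw2⟩ := ih2
    have : b + 1 - k = (b - k) + 1 := by omega
    rw [this]
    exact ⟨by omega, .ask x y hx hy hxy hw1 hw2⟩

/-- The elements of `X` above `u`. -/
noncomputable def above (X : Finset ι) (R : ι → ι → Prop) (u : ι) : Finset ι := by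
  classical
  exact X.filter (fun z => R u z)

theorem mem_above {X : Finset ι} {R : ι → ι → Prop} {u z : ι} :
    z ∈ above X R u ↔ z ∈ X ∧ R u z := by
  classical
  simp [above]

/-- **Lifting**: a minimal element `u` may be deleted; if at the end all elements above `u` are in the
top set `T` then one comparison with `u` was made. -/
theorem Win.lift {t : ℕ} {X : Finset ι} {f : Finset ι → ℕ} {R : ι → ι → Prop} {b : ℕ}
    (h : Win t X f R b) : ∀ u ∈ X, SO R → (∀ a ∈ X, ¬ R a u) → t ≤ (X.erase u).card →
      Win t (X.erase u) (fun T => f T + if above X R u ⊆ T then 1 else 0) R b := by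
  induction h with
  | done c T hc hTX hcT hT hR hB hf =>
    rename_i R b
    intro u hu hSO hmin hcard
    have hcu : c ≠ u := by
      rintro rfl
      have hsub : X.erase c ⊆ T := by
        intro x hx
        rw [mem_erase] at hx
        by_contra hxT
        exact hmin x hx.2 (hB x hx.2 hx.1 hxT)
      have := card_le_card hsub
      omega
    have huT : u ∉ T := fun h => hmin c hc (hR u h)
    have huc : R u c := hB u hu (Ne.symm hcu) huT
    refine .done c T (mem_erase.2 ⟨hcu, hc⟩) ?_ hcT hT hR ?_ ?_
    · intro x hx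
      refine mem_erase.2 ⟨?_, hTX hx⟩
      rintro rfl
      exact huT hx
    · intro x hx h1 h2
      exact hB x (mem_of_mem_erase hx) h1 h2
    · have : ¬ (above X R u ⊆ T) := by
        intro h
        exact hcT (h (mem_above.2 ⟨hc, huc⟩))
      simpa [this] using hf
  | ask x y hx hy hxy h1 h2 ih1 ih2 =>
    rename_i R b
    intro u hu hSO hmin hcard
    -- the set above `u` after a new relation
    have key : ∀ x y, x ∈ X → y ∈ X → ∀ T, Up t (X.erase u) (add R x y) T → x ≠ u → y ≠ u →
        above X R u ⊆ T → above X (add R x y) u ⊆ T := by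
      intro x y hx hy T hT hxu hyu hab z hz
      rw [mem_above] at hz
      rcases hz.2 with h | ⟨h3, h4⟩
      · exact hab (mem_above.2 ⟨hz.1, h⟩)
      · have hxT : x ∈ T := by
          rcases h3 with h3 | h3
          · exact absurd h3.symm hxu
          · exact hab (mem_above.2 ⟨hx, h3⟩)
        have hzu : z ≠ u := by
          rintro rfl
          rcases h4 with h4 | h4
          · exact hyu h4.symm
          · exact hmin y hy h4
        rcases h4 with h4 | h4
        · subst h4
          exact hT.up x hxT z (mem_erase.2 ⟨hzu, hz.1⟩) (add_self R x z)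
        · exact hT.up x hxT z (mem_erase.2 ⟨hzu, hz.1⟩) (Or.inr ⟨Or.inl rfl, Or.inr h4⟩)
    -- comparisons with `u`: the answer `u < y`
    have comp : ∀ y ∈ X, y ≠ u → (SO (add R u y) → (∀ a ∈ X, ¬ add R u y a u) →
          Win t (X.erase u) (fun T => f T + if above X (add R u y) u ⊆ T then 1 else 0)
            (add R u y) b) →
        Win t (X.erase u) (fun T => f T + if above X R u ⊆ T then 1 else 0) R (b + 1) := by
      intro y hy hyu ih
      have hw := ih (hSO.add (Ne.symm hyu) (hmin y hy)) (by
        rintro a ha (h | ⟨h3, h4⟩)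
        · exact hmin a ha h
        · rcases h4 with h4 | h4
          · exact hyu h4.symm
          · exact hmin y hy h4)
      have hw2 := (hw.mono_R R hSO.tr (by
        rintro a ha z hz (h | ⟨h3, h4⟩)
        · exact h
        · rcases h3 with h3 | h3
          · exact absurd h3 (mem_erase.1 ha).1
          · exact absurd h3 (hmin a (mem_erase.1 ha).2))).shift 1
      refine hw2.mono_f _ hSO ?_
      intro T _
      have h1 : (if above X R u ⊆ T then 1 else 0) ≤ 1 := by split_ifs <;> omega
      omega
    by_cases hxu : x = u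
    · subst hxu
      exact comp y hy (Ne.symm hxy) (fun h3 h4 => ih1 x hu h3 h4 hcard)
    · by_cases hyu : y = u
      · subst hyu
        exact comp x hx hxy (fun h3 h4 => ih2 y hu h3 h4 hcard)
      · by_cases hRxy : R x y
        · refine (Win.of_add hSO.tr hRxy ((ih1 u hu (hSO.add hxy fun h => hSO.asymm hRxy h) ?_
            hcard).mono_f _ (hSO.add hxy fun h => hSO.asymm hRxy h) ?_)).mono_b _ (Nat.le_succ b)
          · rintro a ha (h | ⟨h3, h4⟩)
            · exact hmin a ha h
            · rcases h4 with h4 | h4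
              · exact hyu h4.symm
              · exact hmin y hy h4
          · intro T hT
            have := key x y hx hy T hT hxu hyu
            split_ifs <;> first | omega | (exfalso; tauto)
        · by_cases hRyx : R y x
          · refine (Win.of_add hSO.tr hRyx ((ih2 u hu (hSO.add (Ne.symm hxy)
              fun h => hSO.asymm hRyx h) ?_ hcard).mono_f _ (hSO.add (Ne.symm hxy)
              fun h => hSO.asymm hRyx h) ?_)).mono_b _ (Nat.le_succ b)
            · rintro a ha (h | ⟨h3, h4⟩)
              · exact hmin a ha h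
              · rcases h4 with h4 | h4
                · exact hxu h4.symm
                · exact hmin x hx h4
            · intro T hT
              have := key y x hy hx T hT hyu hxu
              split_ifs <;> first | omega | (exfalso; tauto)
          · refine .ask x y (mem_erase.2 ⟨hxu, hx⟩) (mem_erase.2 ⟨hyu, hy⟩) hxy
              ((ih1 u hu (hSO.add hxy hRyx) ?_ hcard).mono_f _ (hSO.add hxy hRyx) ?_)
              ((ih2 u hu (hSO.add (Ne.symm hxy) hRxy) ?_ hcard).mono_f _
                (hSO.add (Ne.symm hxy) hRxy) ?_)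
            · rintro a ha (h | ⟨h3, h4⟩)
              · exact hmin a ha h
              · rcases h4 with h4 | h4
                · exact hyu h4.symm
                · exact hmin y hy h4
            · intro T hT
              have := key x y hx hy T hT hxu hyu
              split_ifs <;> first | omega | (exfalso; tauto)
            · rintro a ha (h | ⟨h3, h4⟩)
              · exact hmin a ha h
              · rcases h4 with h4 | h4
                · exact hxu h4.symm
                · exact hmin x hx h4
            · intro T hT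
              have := key y x hy hx T hT hyu hxu
              split_ifs <;> first | omega | (exfalso; tauto)

end Pool.Agent.Sel
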