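import Mathlib
import Pool.Agent.H24.Sel.Basic

/-!
# Decision trees and the number `V t n` of the problem
-/

set_option linter.unusedSectionVars false

namespace Pool.Agent.Sel

open Finset

/-- Binary comparison trees on the index set `ι`: an inner node compares `y i` with `y j`
(`i ≠ j`), a leaf returns an index. -/
inductive CTree (ι : Type*) where
  | out (c : ι) : CTree ι
  | cmp (i j : ι) (hij : i ≠ j) (lt gt : CTree ι) : CTree ι

namespace CTree

variable {ι : Type*}

/-- The index returned on input `y`. -/
noncomputable def run (y : ι → ℝ) : CTree ι → ι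
  | out c => c
  | cmp i j _ lt gt => by
      classical
      exact if y i < y j then run y lt else run y gt

/-- The number of comparisons made on input `y`. -/
noncomputable def cost (y : ι → ℝ) : CTree ι → ℕ
  | out _ => 0
  | cmp i j _ lt gt => by
      classical
      exact (if y i < y j then cost y lt else cost y gt) + 1

end CTree

/-- The comparison tree `T` identifies the `t`-th largest of `n` distinct reals: for all pairwise
distinct reals `y` it returns the index `i` for which exactly `t - 1` of the `y k` exceed `y i`. -/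
def Identifies (t n : ℕ) (T : CTree (Fin n)) : Prop :=
  ∀ y : Fin n → ℝ, Function.Injective y →
    (Finset.univ.filter (fun k => y (T.run y) < y k)).card + 1 = t

/-- `V t n`: the least `d` such that some comparison tree which identifies the `t`-th largest of
`n` distinct reals makes at most `d` comparisons on every input. -/
noncomputable def V (t n : ℕ) : ℕ :=
  sInf {d | ∃ T : CTree (Fin n), Identifies t n T ∧
    ∀ y : Fin n → ℝ, Function.Injective y → T.cost y ≤ d}

section

variable {ι : Type*} [Fintype ι] [DecidableEq ι]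

/-- `y` is a linear extension of `R`. -/
def Compat (R : ι → ι → Prop) (y : ι → ℝ) : Prop := ∀ a b, R a b → y a < y b

/-- Szpilrajn: every strict order on a finite type has an injective compatible real function. -/
theorem exists_compat {R : ι → ι → Prop} (h : SO R) :
    ∃ y : ι → ℝ, Function.Injective y ∧ Compat R y := by
  classical
  -- a linear order extending `R`
  let r : ι → ι → Prop := fun a b => a = b ∨ R a b
  have : IsPartialOrder ι r :=
    { refl := fun a => Or.inl rfl
      trans := by
        rintro a b c (rfl | h1) (rfl | h2)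
        · exact Or.inl rfl
        · exact Or.inr h2
        · exact Or.inr h1
        · exact Or.inr (h.tr _ _ _ h1 h2)
      antisymm := by
        rintro a b (rfl | h1) (h2 | h2)
        · rfl
        · rfl
        · exact h2.symm
        · exact absurd h2 fun h2 => h.asymm h1 h2 }
  obtain ⟨s, hs, hrs⟩ := extend_partialOrder r
  -- number of predecessors
  let y : ι → ℝ := fun a => ((Finset.univ.filter (fun b => s b a ∧ b ≠ a)).card : ℝ)
  have hlt : ∀ a b, s a b → a ≠ b → y a < y b := by
    intro a b hab hne
    have hss : (Finset.univ.filter (fun c => s c a ∧ c ≠ a)) ⊂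
        (Finset.univ.filter (fun c => s c b ∧ c ≠ b)) := by
      rw [Finset.ssubset_iff_of_subset]
      · refine ⟨a, ?_, ?_⟩
        · simp [hab, hne]
        · simp
      · intro c hc
        simp only [Finset.mem_filter, Finset.mem_univ, true_and] at hc ⊢
        refine ⟨hs.trans _ _ _ hc.1 hab, ?_⟩
        rintro rfl
        exact hc.2 (hs.antisymm _ _ hc.1 hab)
    have := Finset.card_lt_card hss
    simp only [y]
    exact_mod_cast this
  refine ⟨y, ?_, ?_⟩
  · intro a b hab
    by_contra hne
    rcases hs.total a b with h1 | h1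
    · exact absurd hab (ne_of_lt (hlt a b h1 hne))
    · exact absurd hab.symm (ne_of_lt (hlt b a h1 (Ne.symm hne)))
  · intro a b hab
    refine hlt a b (hrs a b (Or.inr hab)) ?_
    rintro rfl
    exact h.irr a hab

theorem Compat.of_add {R : ι → ι → Prop} {x z : ι} {y : ι → ℝ} (h : Compat (add R x z) y) :
    Compat R y ∧ y x < y z :=
  ⟨fun a b hab => h a b (le_add R x z hab), h x z (add_self R x z)⟩

theorem Compat.add {R : ι → ι → Prop} {x z : ι} {y : ι → ℝ} (h : Compat R y) (hxz : y x < y z) :
    Compat (add R x z) y := by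
  rintro a b (hab | ⟨h1, h2⟩)
  · exact h a b hab
  · have h3 : y a ≤ y x := by
      rcases h1 with rfl | h1
      · exact le_rfl
      · exact (h a x h1).le
    have h4 : y z ≤ y b := by
      rcases h2 with rfl | h2
      · exact le_rfl
      · exact (h z b h2).le
    linarith

/-- If the output of a leaf is right for all linear extensions then the state is finished. -/
theorem finished {R : ι → ι → Prop} (h : SO R) {c : ι} {t : ℕ}
    (hc : ∀ y : ι → ℝ, Function.Injective y → Compat R y →
      (Finset.univ.filter (fun k => y c < y k)).card + 1 = t) :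
    ∃ T : Finset ι, c ∉ T ∧ T.card + 1 = t ∧ (∀ x ∈ T, R c x) ∧
      ∀ x, x ≠ c → x ∉ T → R x c := by
  classical
  -- `U` = above `c`, `D` = below `c`
  set U : Finset ι := Finset.univ.filter (fun k => R c k) with hU
  set D : Finset ι := Finset.univ.filter (fun k => R k c) with hD
  have hcU : c ∉ U := by simp [hU, h.irr c]
  -- `c` as high as possible
  have h1 : U.card + 1 = t := by
    let R' : ι → ι → Prop := fun a b => R a b ∨ (¬ (a = c ∨ R c a) ∧ (b = c ∨ R c b))
    have hR' : SO R' := by
      refine ⟨?_, ?_⟩
      · rintro a (h1 | ⟨h1, h2⟩)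
        · exact h.irr a h1
        · exact h1 h2
      · rintro a b d (h1 | ⟨h1, h2⟩) (h3 | ⟨h3, h4⟩)
        · exact Or.inl (h.tr _ _ _ h1 h3)
        · right
          refine ⟨?_, h4⟩
          rintro (rfl | h5)
          · exact h3 (Or.inr h1)
          · exact h3 (Or.inr (h.tr _ _ _ h5 h1))
        · right
          refine ⟨h1, ?_⟩
          rcases h2 with rfl | h2
          · exact Or.inr h3
          · exact Or.inr (h.tr _ _ _ h2 h3)
        · exact absurd h2 h3
    obtain ⟨y, hy, hyc⟩ := exists_compat hR'
    have hh := hc y hy (fun a b hab => hyc a b (Or.inl hab))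
    rw [← hh]
    congr 2
    ext k
    simp only [hU, Finset.mem_filter, Finset.mem_univ, true_and]
    constructor
    · exact fun hk => hyc _ _ (Or.inl hk)
    · intro hk
      by_contra hk2
      have hkc : k ≠ c := by
        rintro rfl
        exact lt_irrefl _ hk
      exact absurd (hyc k c (Or.inr ⟨by tauto, Or.inl rfl⟩)) (not_lt.2 hk.le)
  -- `c` as low as possible
  have h2 : (Finset.univ.filter (fun k => k ≠ c ∧ ¬ R k c)).card + 1 = t := by
    let R' : ι → ι → Prop := fun a b => R a b ∨ ((a = c ∨ R a c) ∧ ¬ (b = c ∨ R b c))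
    have hR' : SO R' := by
      refine ⟨?_, ?_⟩
      · rintro a (h1 | ⟨h1, h2⟩)
        · exact h.irr a h1
        · exact h2 h1
      · rintro a b d (h1 | ⟨h1, h2⟩) (h3 | ⟨h3, h4⟩)
        · exact Or.inl (h.tr _ _ _ h1 h3)
        · right
          refine ⟨?_, h4⟩
          rcases h3 with h3 | h3
          · exact Or.inr (h3 ▸ h1)
          · exact Or.inr (h.tr _ _ _ h1 h3)
        · right
          refine ⟨h1, ?_⟩
          rintro (h5 | h5)
          · exact h2 (Or.inr (h5 ▸ h3))
          · exact h2 (Or.inr (h.tr _ _ _ h3 h5))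
        · exact absurd h3 h2
    obtain ⟨y, hy, hyc⟩ := exists_compat hR'
    have hh := hc y hy (fun a b hab => hyc a b (Or.inl hab))
    rw [← hh]
    congr 2
    ext k
    simp only [Finset.mem_filter, Finset.mem_univ, true_and]
    constructor
    · exact fun hk => hyc _ _ (Or.inr ⟨Or.inl rfl, by tauto⟩)
    · intro hk
      refine ⟨?_, ?_⟩
      · rintro rfl
        exact lt_irrefl _ hk
      · intro hk2
        exact absurd (hyc k c (Or.inl hk2)) (not_lt.2 hk.le)
  have hsub : U ⊆ Finset.univ.filter (fun k => k ≠ c ∧ ¬ R k c) := by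
    intro k hk
    simp only [hU, Finset.mem_filter, Finset.mem_univ, true_and] at hk ⊢
    refine ⟨?_, fun h3 => h.asymm hk h3⟩
    rintro rfl
    exact h.irr _ hk
  have heq := Finset.eq_of_subset_of_card_le hsub (by omega)
  refine ⟨U, hcU, h1, ?_, ?_⟩
  · intro x hx
    simpa [hU] using hx
  · intro x hx1 hx2
    rw [heq] at hx2
    simp only [Finset.mem_filter, Finset.mem_univ, true_and, not_and, not_not] at hx2
    exact hx2 hx1

/-- From a comparison tree to the game. -/
theorem win_of_tree {t : ℕ} (T : CTree ι) : ∀ (R : ι → ι → Prop) (d : ℕ), SO R →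
    (∀ y : ι → ℝ, Function.Injective y → Compat R y →
      (Finset.univ.filter (fun k => y (T.run y) < y k)).card + 1 = t ∧ T.cost y ≤ d) →
    Win t Finset.univ (fun _ => 0) R d := by
  classical
  induction T with
  | out c =>
    intro R d hSO h
    obtain ⟨T, hcT, hT, hR, hB⟩ := finished (t := t) hSO (c := c) (fun y h1 h2 => (h y h1 h2).1)
    exact .done c T (Finset.mem_univ _) (Finset.subset_univ _) hcT hT hR
      (fun x _ h1 h2 => hB x h1 h2) (Nat.zero_le _)
  | cmp i j hij lt gt ih1 ih2 =>
    intro R d hSO h
    obtain ⟨y0, hy0, hyc0⟩ := exists_compat hSO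
    have hd : 1 ≤ d := by
      have := (h y0 hy0 hyc0).2
      simp only [CTree.cost] at this
      omega
    obtain ⟨d, rfl⟩ : ∃ d', d = d' + 1 := ⟨d - 1, by omega⟩
    have b1 : ∀ y : ι → ℝ, Function.Injective y → Compat R y → y i < y j →
        (Finset.univ.filter (fun k => y (lt.run y) < y k)).card + 1 = t ∧ lt.cost y ≤ d := by
      intro y h1 h2 h3
      have h4 := h y h1 h2
      simp only [CTree.run, CTree.cost, h3, if_true] at h4
      exact ⟨h4.1, by omega⟩
    have b2 : ∀ y : ι → ℝ, Function.Injective y → Compat R y → y j < y i →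
        (Finset.univ.filter (fun k => y (gt.run y) < y k)).card + 1 = t ∧ gt.cost y ≤ d := by
      intro y h1 h2 h3
      have h4 := h y h1 h2
      simp only [CTree.run, CTree.cost, not_lt.2 h3.le, if_false] at h4
      exact ⟨h4.1, by omega⟩
    by_cases hRij : R i j
    · exact (ih1 R d hSO (fun y h1 h2 => b1 y h1 h2 (h2 i j hRij))).mono_b _ (Nat.le_succ d)
    · by_cases hRji : R j i
      · exact (ih2 R d hSO (fun y h1 h2 => b2 y h1 h2 (h2 j i hRji))).mono_b _ (Nat.le_succ d)
      · refine .ask i j (Finset.mem_univ _) (Finset.mem_univ _) hij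
          (ih1 _ d (hSO.add hij hRji) ?_) (ih2 _ d (hSO.add (Ne.symm hij) hRij) ?_)
        · intro y h1 h2
          exact b1 y h1 h2.of_add.1 h2.of_add.2
        · intro y h1 h2
          exact b2 y h1 h2.of_add.1 h2.of_add.2

/-- From the game to a comparison tree. -/
theorem tree_of_win {t : ℕ} {f : Finset ι → ℕ} {R : ι → ι → Prop} {d : ℕ}
    (h : Win t Finset.univ f R d) : SO R →
    ∃ T : CTree ι, ∀ y : ι → ℝ, Function.Injective y → Compat R y →
      (Finset.univ.filter (fun k => y (T.run y) < y k)).card + 1 = t ∧ T.cost y ≤ d := by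
  classical
  induction h with
  | done c T hc hTX hcT hT hR hB hf =>
    intro hSO
    refine ⟨.out c, ?_⟩
    intro y hy hyc
    refine ⟨?_, by simp [CTree.cost]⟩
    rw [← hT]
    congr 2
    ext k
    simp only [CTree.run, Finset.mem_filter, Finset.mem_univ, true_and]
    constructor
    · intro hk
      by_contra hkT
      have hkc : k ≠ c := by
        rintro rfl
        exact lt_irrefl _ hk
      exact absurd (hyc _ _ (hB k (Finset.mem_univ _) hkc hkT)) (not_lt.2 hk.le)
    · exact fun hk => hyc _ _ (hR k hk)
  | ask x z hx hz hxz h1 h2 ih1 ih2 =>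
    rename_i R b
    intro hSO
    by_cases hRxz : R x z
    · obtain ⟨T, hT⟩ := ih1 (hSO.add hxz fun h => hSO.asymm hRxz h)
      refine ⟨T, ?_⟩
      intro y hy hyc
      have := hT y hy (hyc.add (hyc _ _ hRxz))
      exact ⟨this.1, by omega⟩
    · by_cases hRzx : R z x
      · obtain ⟨T, hT⟩ := ih2 (hSO.add (Ne.symm hxz) fun h => hSO.asymm hRzx h)
        refine ⟨T, ?_⟩
        intro y hy hyc
        have := hT y hy (hyc.add (hyc _ _ hRzx))
        exact ⟨this.1, by omega⟩
      · obtain ⟨T1, hT1⟩ := ih1 (hSO.add hxz hRzx)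
        obtain ⟨T2, hT2⟩ := ih2 (hSO.add (Ne.symm hxz) hRxz)
        refine ⟨.cmp x z hxz T1 T2, ?_⟩
        intro y hy hyc
        by_cases h3 : y x < y z
        · have := hT1 y hy (hyc.add h3)
          simp only [CTree.run, CTree.cost, h3, if_true]
          exact ⟨this.1, by omega⟩
        · have h4 : y z < y x := lt_of_le_of_ne (not_lt.1 h3) (fun h => hxz (hy h).symm)
          have := hT2 y hy (hyc.add h4)
          simp only [CTree.run, CTree.cost, h3, if_false]
          exact ⟨this.1, by omega⟩

end

/-- The empty relation. -/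
def emp {ι : Type*} : ι → ι → Prop := fun _ _ => False

theorem so_emp {ι : Type*} : SO (emp : ι → ι → Prop) := ⟨fun _ h => h, fun _ _ _ h _ => h.elim⟩

/-- `V t n` in terms of the game. -/
theorem exists_tree_iff (t n d : ℕ) :
    (∃ T : CTree (Fin n), Identifies t n T ∧
      ∀ y : Fin n → ℝ, Function.Injective y → T.cost y ≤ d) ↔
    Win t (Finset.univ : Finset (Fin n)) (fun _ => 0) emp d := by
  constructor
  · rintro ⟨T, h1, h2⟩
    exact win_of_tree T emp d so_emp (fun y hy _ => ⟨h1 y hy, h2 y hy⟩)
  · intro h
    obtain ⟨T, hT⟩ := tree_of_win h so_emp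
    exact ⟨T, fun y hy => (hT y hy (fun _ _ h => h.elim)).1,
      fun y hy => (hT y hy (fun _ _ h => h.elim)).2⟩

theorem V_eq (t n : ℕ) :
    V t n = sInf {d | Win t (Finset.univ : Finset (Fin n)) (fun _ => 0) emp d} := by
  unfold V
  congr 1
  ext d
  exact exists_tree_iff t n d

/-- Upper bound from the game. -/
theorem V_le {t n d : ℕ} (h : Win t (Finset.univ : Finset (Fin n)) (fun _ => 0) emp d) :
    V t n ≤ d := by
  rw [V_eq]
  exact Nat.sInf_le h

/-- Lower bound from the game (some algorithm must exist). -/
theorem le_V {t n d d' : ℕ} (h0 : Win t (Finset.univ : Finset (Fin n)) (fun _ => 0) emp d')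
    (h : ∀ e, Win t (Finset.univ : Finset (Fin n)) (fun _ => 0) emp e → d ≤ e) :
    d ≤ V t n := by
  rw [V_eq]
  exact le_csInf ⟨d', h0⟩ (fun e he => h e he)

end Pool.Agent.Sel
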