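import Mathlib

/-!
# A lower bound for elementary symmetric functions of masses in `[0,1]`
-/

namespace Pool.Agent.Sel

open Finset

/-- `cc a i = C(a, i-1)` (zero for `i = 0`). -/
def cc (a : ℕ) : ℕ → ℕ
  | 0 => 0
  | i + 1 => a.choose i

theorem choose_succ_cc (a i : ℕ) : (a + 1).choose i = a.choose i + cc a i := by
  cases i with
  | zero => simp [cc]
  | succ i => rw [Nat.choose_succ_succ, add_comm, cc]

theorem cc_succ (a i : ℕ) : cc (a + 1) (i + 1) = cc a (i + 1) + cc a i := by
  simp only [cc]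
  exact choose_succ_cc a i

set_option linter.unusedSectionVars false

variable {ι : Type*} [DecidableEq ι]

/-- elementary symmetric function of the masses `μ` on `L`. -/
def es (μ : ι → ℚ) (L : Finset ι) (i : ℕ) : ℚ := ∑ S ∈ L.powersetCard i, ∏ l ∈ S, μ l

theorem es_zero (μ : ι → ℚ) (L : Finset ι) : es μ L 0 = 1 := by
  simp [es]

theorem es_empty_succ (μ : ι → ℚ) (i : ℕ) : es μ ∅ (i + 1) = 0 := by
  unfold es
  rw [powersetCard_eq_empty.2 (by simp)]
  simp

theorem es_insert (μ : ι → ℚ) {L : Finset ι} {l : ι} (hl : l ∉ L) (i : ℕ) :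
    es μ (insert l L) (i + 1) = es μ L (i + 1) + μ l * es μ L i := by
  unfold es
  rw [powersetCard_succ_insert hl, sum_union, sum_image, mul_sum]
  · congr 1
    refine sum_congr rfl ?_
    intro S hS
    rw [prod_insert]
    exact fun h => hl ((mem_powersetCard.1 hS).1 h)
  · intro S hS S' hS' h
    have hSl : l ∉ S := fun h => hl ((mem_powersetCard.1 hS).1 h)
    have hSl' : l ∉ S' := fun h => hl ((mem_powersetCard.1 hS').1 h)
    rw [← erase_insert hSl, ← erase_insert hSl', h]
  · rw [disjoint_left]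
    intro S hS hS'
    rw [mem_image] at hS'
    obtain ⟨S', _, rfl⟩ := hS'
    exact hl ((mem_powersetCard.1 hS).1 (mem_insert_self l S'))

/-- The tangent line bound: masses in `[0,1]` with sum `s` have
`e_i ≥ C(a,i) + (s - a) C(a,i-1)` for every natural number `a`. -/
theorem es_ge (μ : ι → ℚ) (L : Finset ι) (h0 : ∀ l ∈ L, 0 ≤ μ l) (h1 : ∀ l ∈ L, μ l ≤ 1) :
    ∀ i a : ℕ, (a.choose i : ℚ) + ((∑ l ∈ L, μ l) - a) * (cc a i : ℚ) ≤ es μ L i := by
  induction L using Finset.induction_on with
  | empty =>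
    intro i a
    cases i with
    | zero => simp [es_zero, cc]
    | succ i =>
      rw [es_empty_succ, sum_empty, cc]
      cases a with
      | zero => simp
      | succ a =>
        have h2 := Nat.add_one_mul_choose_eq a i
        -- (a+1) C(a,i) = C(a+1,i+1) (i+1)
        have h3 : ((a + 1 : ℕ).choose (i + 1) : ℚ) ≤ ((a + 1 : ℕ) : ℚ) * ((a + 1).choose i : ℚ) := by
          have h4 : (a + 1).choose (i + 1) ≤ (a + 1) * (a + 1).choose i := by
            calc (a + 1).choose (i + 1) ≤ (a + 1).choose (i + 1) * (i + 1) :=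
                  Nat.le_mul_of_pos_right _ (Nat.succ_pos i)
              _ = (a + 1) * a.choose i := h2.symm
              _ ≤ (a + 1) * (a + 1).choose i :=
                  Nat.mul_le_mul_left _ (Nat.choose_le_choose i (Nat.le_succ a))
          exact_mod_cast h4
        push_cast at h3 ⊢
        linarith
  | insert l L hl ih =>
    have ih' := ih (fun l hl => h0 l (mem_insert_of_mem hl)) (fun l hl => h1 l (mem_insert_of_mem hl))
    have hx0 : 0 ≤ μ l := h0 l (mem_insert_self l L)
    have hx1 : μ l ≤ 1 := h1 l (mem_insert_self l L)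
    have hs0 : 0 ≤ ∑ l ∈ L, μ l := sum_nonneg fun l hl => h0 l (mem_insert_of_mem hl)
    intro i a
    rw [sum_insert hl]
    set s := ∑ l ∈ L, μ l with hs
    set x := μ l with hx
    cases i with
    | zero => simp [es_zero, cc]
    | succ i =>
      rw [es_insert μ hl]
      by_cases hsa : (a : ℚ) ≤ s
      · have e1 := ih' (i + 1) a
        have e2 := ih' i a
        have e3 : (a.choose i : ℚ) ≤ es μ L i := by
          refine le_trans ?_ e2
          have : 0 ≤ (s - a) * (cc a i : ℚ) := mul_nonneg (by linarith) (by positivity)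
          linarith
        have e4 : (x : ℚ) * (a.choose i : ℚ) ≤ x * es μ L i := mul_le_mul_of_nonneg_left e3 hx0
        have e5 : (cc a (i + 1) : ℚ) = (a.choose i : ℚ) := by simp [cc]
        rw [e5] at e1 ⊢
        linarith
      · push Not at hsa
        obtain ⟨a, rfl⟩ : ∃ a', a = a' + 1 := by
          cases a with
          | zero => simp at hsa; linarith
          | succ a => exact ⟨a, rfl⟩
        have e1 := ih' (i + 1) a
        have e2 := mul_le_mul_of_nonneg_left (ih' i a) hx0
        rw [choose_succ_cc, cc_succ]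
        push_cast at hsa ⊢
        have e5 : (cc a (i + 1) : ℚ) = (a.choose i : ℚ) := by simp [cc]
        rw [e5] at e1 ⊢
        have e6 : 0 ≤ ((a : ℚ) + 1 - s) * (1 - x) * (cc a i : ℚ) :=
          mul_nonneg (mul_nonneg (by linarith) (by linarith)) (by positivity)
        nlinarith [e1, e2, e6]

/-- The half-integral form. -/
theorem es_ge_half (μ : ι → ℚ) (L : Finset ι) (h0 : ∀ l ∈ L, 0 ≤ μ l) (h1 : ∀ l ∈ L, μ l ≤ 1)
    (F : ℕ) (hF : (F : ℚ) ≤ 2 * ∑ l ∈ L, μ l) (i : ℕ) :
    (2 * (F / 2).choose i + (F % 2) * cc (F / 2) i : ℕ) ≤ 2 * es μ L i := by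
  have h := es_ge μ L h0 h1 i (F / 2)
  have h2 : (F : ℚ) = 2 * ((F / 2 : ℕ) : ℚ) + ((F % 2 : ℕ) : ℚ) := by
    have := Nat.div_add_mod F 2
    exact_mod_cast this.symm
  have h3 : 0 ≤ (cc (F / 2) i : ℚ) := by positivity
  have h4 : ((F % 2 : ℕ) : ℚ) * (cc (F / 2) i : ℚ) ≤
      2 * ((∑ l ∈ L, μ l) - ((F / 2 : ℕ) : ℚ)) * (cc (F / 2) i : ℚ) := by
    refine mul_le_mul_of_nonneg_right ?_ h3
    linarith
  push_cast
  linarith

end Pool.Agent.Sel
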