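import Mathlib

/-!
# Counting nonzero lanes of 16 bits by one addition and one `mod`
-/

namespace Pool.Agent.Sel

open Finset

/-- `v` repeated in `n` lanes of 16 bits. -/
def rep : ℕ → ℕ → ℕ
  | 0, _ => 0
  | n + 1, v => v + 65536 * rep n v

theorem rep_mul (n v : ℕ) : rep n v = v * rep n 1 := by
  induction n with
  | zero => simp [rep]
  | succ n ih =>
    rw [rep, rep, ih]
    ring

/-- Splitting off the lowest lane. -/
theorem land_split (a b c d : ℕ) (ha : a < 65536) (hc : c < 65536) :
    (a + 65536 * b) &&& (c + 65536 * d) = (a &&& c) + 65536 * (b &&& d) := by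
  have h16 : (65536 : ℕ) = 2 ^ 16 := by norm_num
  have hac : a &&& c < 65536 := lt_of_le_of_lt Nat.and_le_left ha
  refine Nat.eq_of_testBit_eq fun i => ?_
  rw [Nat.testBit_and]
  have e : ∀ x y : ℕ, x < 65536 → (x + 65536 * y).testBit i =
      if i < 16 then x.testBit i else y.testBit (i - 16) := by
    intro x y hx
    rw [h16, add_comm, Nat.testBit_two_pow_mul_add _ (by rw [← h16]; exact hx)]
  rw [e a b ha, e c d hc, e (a &&& c) (b &&& d) hac]
  split_ifs
  · rw [Nat.testBit_and]
  · rw [Nat.testBit_and]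

/-- number of lanes `i < n` of `U` which meet the mask `M` -/
def cnt : ℕ → ℕ → ℕ → ℕ
  | 0, _, _ => 0
  | n + 1, U, M => (if (U % 65536) &&& M = 0 then 0 else 1) + cnt n (U / 65536) M

theorem cnt_le (n : ℕ) : ∀ U M, cnt n U M ≤ n := by
  induction n with
  | zero => intro U M; simp [cnt]
  | succ n ih =>
    intro U M
    rw [cnt]
    have := ih (U / 65536) M
    split_ifs <;> omega

theorem cnt_eq (n : ℕ) : ∀ U M, cnt n U M =
    ((range n).filter (fun i => ¬ ((U >>> (16 * i)) % 65536) &&& M = 0)).card := by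
  induction n with
  | zero => intro U M; simp [cnt]
  | succ n ih =>
    intro U M
    rw [cnt, ih, card_filter, card_filter, sum_range_succ']
    have h1 : ∀ i, (U / 65536) >>> (16 * i) = U >>> (16 * (i + 1)) := by
      intro i
      rw [Nat.shiftRight_eq_div_pow, Nat.shiftRight_eq_div_pow, Nat.div_div_eq_div_mul]
      congr 1
      rw [mul_add, pow_add, mul_comm]
      norm_num
    simp only [h1]
    rw [add_comm]
    congr 1
    simp only [mul_zero, Nat.shiftRight_zero]
    split_ifs <;> simp_all

/-- the indicator of the nonzero lanes, shifted -/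
theorem lane_step (n U M : ℕ) (hM : M < 32768) :
    ((((U &&& rep (n + 1) M) + rep (n + 1) 32767) &&& rep (n + 1) 32768) / 32768) =
      (if (U % 65536) &&& M = 0 then 0 else 1) +
        65536 * ((((U / 65536 &&& rep n M) + rep n 32767) &&& rep n 32768) / 32768) ∧
    32768 ∣ (((U &&& rep n M) + rep n 32767) &&& rep n 32768) := by
  have hdvd : ∀ n x, 32768 ∣ (x &&& rep n 32768) := by
    intro n
    induction n with
    | zero => intro x; simp [rep]
    | succ n ih =>
      intro x
      have hx : x = x % 65536 + 65536 * (x / 65536) := (Nat.mod_add_div x 65536).symm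
      rw [hx, rep, land_split _ _ _ _ (Nat.mod_lt _ (by norm_num)) (by norm_num)]
      refine Dvd.dvd.add ?_ (Dvd.dvd.mul_left (ih _) _)
      have : (32768 : ℕ) = 2 ^ 15 := by norm_num
      rw [this, Nat.and_two_pow]
      exact Dvd.intro_left _ rfl
  refine ⟨?_, hdvd n _⟩
  set u := U % 65536 with hu
  set U' := U / 65536 with hU'
  have hU : U = u + 65536 * U' := (Nat.mod_add_div U 65536).symm
  have hu1 : u < 65536 := Nat.mod_lt _ (by norm_num)
  rw [hU, rep, rep, rep, land_split _ _ _ _ hu1 (by omega)]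
  have hv : u &&& M < 32768 := lt_of_le_of_lt Nat.and_le_right hM
  have e1 : (u &&& M) + 65536 * (U' &&& rep n M) + (32767 + 65536 * rep n 32767) =
      ((u &&& M) + 32767) + 65536 * ((U' &&& rep n M) + rep n 32767) := by ring
  rw [e1, land_split _ _ _ _ (by omega) (by norm_num)]
  obtain ⟨k, hk⟩ := hdvd n ((U' &&& rep n M) + rep n 32767)
  rw [hk]
  have e2 : 65536 * (32768 * k) = 32768 * (65536 * k) := by ring
  rw [e2]
  have h15 : (32768 : ℕ) = 2 ^ 15 := by norm_num
  have e3 : ((u &&& M) + 32767) &&& 32768 = 32768 * (if u &&& M = 0 then 0 else 1) := by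
    rw [h15, Nat.and_two_pow, ← h15]
    split_ifs with h
    · rw [h]
      decide
    · have h1 : ((u &&& M) + 32767).testBit 15 = true := by
        rw [Nat.testBit_eq_decide_div_mod_eq]
        have : ((u &&& M) + 32767) / 2 ^ 15 = 1 := by
          omega
        rw [this]
        decide
      rw [h1]
      rfl
  rw [e3, Nat.mul_div_cancel_left _ (by norm_num), ← mul_add,
    Nat.mul_div_cancel_left _ (by norm_num)]

theorem lanes_eq (n : ℕ) : ∀ U M, M < 32768 →
    ((((U &&& rep n M) + rep n 32767) &&& rep n 32768) / 32768) % 65535 = cnt n U M % 65535 := by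
  induction n with
  | zero => intro U M _; simp [rep, cnt]
  | succ n ih =>
    intro U M hM
    rw [(lane_step n U M hM).1, cnt]
    have h1 := ih (U / 65536) M hM
    rw [Nat.add_mod, Nat.mul_mod, h1]
    rw [Nat.add_mod (if U % 65536 &&& M = 0 then 0 else 1) (cnt n (U / 65536) M)]
    norm_num

/-- The bit-parallel count. -/
theorem lanes16 (U M : ℕ) (hM : M < 32768) :
    ((((U &&& (M * rep 16 1)) + rep 16 32767) &&& rep 16 32768) >>> 15) % 65535 = cnt 16 U M := by
  rw [← rep_mul, Nat.shiftRight_eq_div_pow]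
  have : (2 : ℕ) ^ 15 = 32768 := by norm_num
  rw [this, lanes_eq 16 U M hM]
  exact Nat.mod_eq_of_lt (lt_of_le_of_lt (cnt_le 16 U M) (by norm_num))

end Pool.Agent.Sel
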