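import Mathlib
import Pool.Agent.H24.Sel.Basic

/-!
# More lemmas on the game `Win`: deletion, tokens, promotion, the Fussenegger-Gabow sum
-/

set_option linter.unusedSectionVars false

namespace Pool.Agent.Sel

open Finset

variable {ι : Type*} [DecidableEq ι]

/-- A minimal element may be deleted. -/
theorem Win.drop {t : ℕ} {X : Finset ι} {f : Finset ι → ℕ} {R : ι → ι → Prop} {b : ℕ}
    (h : Win t X f R b) (hSO : SO R) {u : ι} (hu : u ∈ X) (hmin : ∀ a ∈ X, ¬ R a u)
    (hcard : t ≤ (X.erase u).card) : Win t (X.erase u) f R b :=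
  (h.lift u hu hSO hmin hcard).mono_f f hSO (fun _ _ => Nat.le_add_right _ _)

/-- A private leaf `u` below `z` may be replaced by a token on `z`. -/
theorem Win.token {t : ℕ} {X : Finset ι} {f : Finset ι → ℕ} {R : ι → ι → Prop} {b : ℕ}
    (h : Win t X f R b) (hSO : SO R) {u z : ι} (hu : u ∈ X) (hmin : ∀ a ∈ X, ¬ R a u)
    (hcard : t ≤ (X.erase u).card) (hz : ∀ y ∈ X, R u y → y = z ∨ R z y) :
    Win t (X.erase u) (fun T => f T + if z ∈ T then 1 else 0) R b := by
  refine (h.lift u hu hSO hmin hcard).mono_f _ hSO ?_
  intro T hT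
  have : z ∈ T → above X R u ⊆ T := by
    intro hzT y hy
    rw [mem_above] at hy
    rcases hz y hy.1 hy.2 with rfl | h1
    · exact hzT
    · refine hT.up z hzT y (mem_erase.2 ⟨?_, hy.1⟩) h1
      rintro rfl
      exact hSO.irr _ hy.2
  by_cases hzT : z ∈ T
  · simp [hzT, this hzT]
  · simp [hzT]

/-- An isolated element costs at least one comparison. -/
theorem Win.single {t : ℕ} {X : Finset ι} {f : Finset ι → ℕ} {R : ι → ι → Prop} {b : ℕ}
    (h : Win t X f R b) (hSO : SO R) {u : ι} (hu : u ∈ X) (hmin : ∀ a ∈ X, ¬ R a u)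
    (hmax : ∀ a ∈ X, ¬ R u a) (hcard : t ≤ (X.erase u).card) :
    1 ≤ b ∧ Win t (X.erase u) f R (b - 1) := by
  have h1 := h.lift u hu hSO hmin hcard
  have h2 : above X R u = ∅ := by
    ext z
    simp only [mem_above, notMem_empty, iff_false, not_and]
    exact fun hz => hmax z hz
  refine h1.unshift (k := 1) (fun T => ?_)
  simp [h2]

/-- Every nonempty finite set has a minimal element. -/
theorem exists_minimal {R : ι → ι → Prop} (hSO : SO R) (D : Finset ι) (hD : D.Nonempty) :
    ∃ u ∈ D, ∀ a ∈ D, ¬ R a u := by
  classical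
  obtain ⟨u, hu, hmin⟩ := D.exists_min_image (fun u => (D.filter (fun a => R a u)).card) hD
  refine ⟨u, hu, ?_⟩
  intro a ha hau
  have hss : D.filter (fun b => R b a) ⊂ D.filter (fun b => R b u) := by
    rw [Finset.ssubset_iff_of_subset]
    · exact ⟨a, by simp [ha, hau], by simp [hSO.irr a]⟩
    · intro b hb
      simp only [mem_filter] at hb ⊢
      exact ⟨hb.1, hSO.tr _ _ _ hb.2 hau⟩
  exact absurd (hmin a ha) (not_le.2 (card_lt_card hss))

/-- A down-set may be deleted. -/
theorem Win.del {t : ℕ} {f : Finset ι → ℕ} {R : ι → ι → Prop} {b : ℕ} (hSO : SO R)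
    (D : Finset ι) {X : Finset ι} (hX : Win t X f R b) (hdown : ∀ a ∈ X, ∀ d ∈ X ∩ D, R a d → a ∈ D)
    (hcard : t ≤ (X \ D).card) : Win t (X \ D) f R b := by
  classical
  induction hk : (X ∩ D).card using Nat.strong_induction_on generalizing X with
  | _ k ih =>
    by_cases hne : (X ∩ D).Nonempty
    · obtain ⟨u, hu, hmin⟩ := exists_minimal hSO (X ∩ D) hne
      have huX : u ∈ X := (mem_inter.1 hu).1
      have huD : u ∈ D := (mem_inter.1 hu).2
      have hmin' : ∀ a ∈ X, ¬ R a u := fun a ha hau =>
        hmin a (mem_inter.2 ⟨ha, hdown a ha u hu hau⟩) hau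
      have heq : (X.erase u) \ D = X \ D := by
        ext x
        simp only [mem_sdiff, mem_erase]
        constructor
        · rintro ⟨⟨_, h1⟩, h2⟩
          exact ⟨h1, h2⟩
        · rintro ⟨h1, h2⟩
          refine ⟨⟨?_, h1⟩, h2⟩
          rintro rfl
          exact h2 huD
      have hcard' : t ≤ (X.erase u).card := by
        refine hcard.trans (card_le_card ?_)
        rw [← heq]
        exact sdiff_subset
      have h1 := hX.drop hSO huX hmin' hcard'
      have h2 : ((X.erase u) ∩ D).card < k := by
        rw [← hk]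
        refine card_lt_card ?_
        rw [Finset.ssubset_iff_of_subset]
        · exact ⟨u, hu, by simp⟩
        · intro x hx
          simp only [mem_inter, mem_erase] at hx ⊢
          exact ⟨hx.1.2, hx.2⟩
      have h3 := ih _ h2 h1 (by
        intro a ha d hd had
        simp only [mem_inter, mem_erase] at ha hd
        exact hdown a ha.2 d (mem_inter.2 ⟨hd.1.2, hd.2⟩) had) (by rwa [heq]) rfl
      rwa [heq] at h3
    · have : X \ D = X := by
        rw [Finset.sdiff_eq_self_iff_disjoint, Finset.disjoint_iff_inter_eq_empty]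
        exact Finset.not_nonempty_iff_eq_empty.1 hne
      rw [this]
      exact hX

/-- **Promotion**: a maximal element `a` is declared to be the largest. -/
theorem Win.top {t : ℕ} {X : Finset ι} {f : Finset ι → ℕ} {R : ι → ι → Prop} {b : ℕ}
    (h : Win t X f R b) : ∀ a ∈ X, SO R → (∀ z ∈ X, ¬ R a z) → 2 ≤ t →
      Win (t - 1) (X.erase a) (fun T => f (insert a T)) R b := by
  induction h with
  | done c T hc hTX hcT hT hR hB hf =>
    rename_i R b
    intro a ha hSO hmax ht
    have hca : c ≠ a := by
      rintro rfl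
      obtain ⟨x, hx⟩ : T.Nonempty := by
        rw [← card_pos]
        omega
      exact hmax x (hTX hx) (hR x hx)
    have haT : a ∈ T := by
      by_contra haT
      exact hmax c hc (hB a ha (Ne.symm hca) haT)
    refine .done c (T.erase a) (mem_erase.2 ⟨hca, hc⟩) (erase_subset_erase a hTX) ?_ ?_ ?_ ?_ ?_
    · intro h
      exact hcT (mem_of_mem_erase h)
    · rw [card_erase_of_mem haT]
      have : 0 < T.card := card_pos.2 ⟨a, haT⟩
      omega
    · intro x hx
      exact hR x (mem_of_mem_erase hx)
    · intro x hx h1 h2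
      rw [mem_erase] at hx
      refine hB x hx.2 h1 ?_
      intro h3
      exact h2 (mem_erase.2 ⟨hx.1, h3⟩)
    · rw [insert_erase haT]
      exact hf
  | ask x y hx hy hxy h1 h2 ih1 ih2 =>
    rename_i R b
    intro a ha hSO hmax ht
    have comp : ∀ y ∈ X, y ≠ a → (SO (add R y a) → (∀ z ∈ X, ¬ add R y a a z) →
          Win (t - 1) (X.erase a) (fun T => f (insert a T)) (add R y a) b) →
        Win (t - 1) (X.erase a) (fun T => f (insert a T)) R (b + 1) := by
      intro y hy hya ih
      have hw := ih (hSO.add hya (hmax y hy)) (by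
        rintro z hz (h | ⟨h3, h4⟩)
        · exact hmax z hz h
        · rcases h3 with h3 | h3
          · exact hya h3.symm
          · exact hmax y hy h3)
      refine (hw.mono_R R hSO.tr (by
        rintro p hp q hq (h | ⟨h3, h4⟩)
        · exact h
        · rcases h4 with h4 | h4
          · exact absurd h4 (mem_erase.1 hq).1
          · exact absurd h4 (hmax q (mem_erase.1 hq).2))).mono_b _ (Nat.le_succ b)
    have max' : ∀ x y, x ≠ a → x ∈ X → y ∈ X → ∀ z ∈ X, ¬ add R x y a z := by
      rintro x y hxa hx hy z hz (h | ⟨h3, h4⟩)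
      · exact hmax z hz h
      · rcases h3 with h3 | h3
        · exact hxa h3.symm
        · exact hmax x hx h3
    by_cases hxa : x = a
    · subst hxa
      exact comp y hy (Ne.symm hxy) (fun h3 h4 => ih2 x ha h3 h4 ht)
    · by_cases hya : y = a
      · subst hya
        exact comp x hx hxy (fun h3 h4 => ih1 y ha h3 h4 ht)
      · by_cases hRxy : R x y
        · exact (Win.of_add hSO.tr hRxy (ih1 a ha (hSO.add hxy fun h => hSO.asymm hRxy h)
            (max' x y hxa hx hy) ht)).mono_b _ (Nat.le_succ b)
        · by_cases hRyx : R y x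
          · exact (Win.of_add hSO.tr hRyx (ih2 a ha (hSO.add (Ne.symm hxy)
              fun h => hSO.asymm hRyx h) (max' y x hya hy hx) ht)).mono_b _ (Nat.le_succ b)
          · exact .ask x y (mem_erase.2 ⟨hxa, hx⟩) (mem_erase.2 ⟨hya, hy⟩) hxy
              (ih1 a ha (hSO.add hxy hRyx) (max' x y hxa hx hy) ht)
              (ih2 a ha (hSO.add (Ne.symm hxy) hRxy) (max' y x hya hy hx) ht)

/-- The number of maximal elements of `S`. -/
noncomputable def roots (R : ι → ι → Prop) (S : Finset ι) : ℕ := by
  classical
  exact (S.filter (fun x => ∀ z ∈ S, ¬ R x z)).card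

/-- The Fussenegger-Gabow sum (times two). -/
noncomputable def fgSum (t : ℕ) (X : Finset ι) (R : ι → ι → Prop) (f : Finset ι → ℕ) : ℕ := by
  classical
  exact ∑ T ∈ X.powerset.filter (fun T => Up t X R T), 2 ^ (f T + roots R (X \ T))

theorem roots_add {R : ι → ι → Prop} {S : Finset ι} {x y : ι} (hx : x ∈ S) (hy : y ∈ S) :
    roots R S ≤ roots (add R x y) S + 1 := by
  classical
  unfold roots
  have : S.filter (fun a => ∀ z ∈ S, ¬ R a z) ⊆
      insert x (S.filter (fun a => ∀ z ∈ S, ¬ add R x y a z)) := by
    intro a ha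
    rw [mem_filter] at ha
    rw [mem_insert, mem_filter]
    by_cases hax : a = x
    · exact Or.inl hax
    · refine Or.inr ⟨ha.1, ?_⟩
      rintro z hz (h | ⟨h1, h2⟩)
      · exact ha.2 z hz h
      · rcases h1 with h1 | h1
        · exact hax h1
        · exact ha.2 x hx h1
  calc _ ≤ _ := card_le_card this
    _ ≤ _ := card_insert_le _ _

/-- adding `x < y` with `y` outside of `S` (and all above `y` as well) does not change the roots. -/
theorem roots_add_of_notMem {R : ι → ι → Prop} {S : Finset ι} {x y : ι}
    (hy : ∀ z ∈ S, ¬ (z = y ∨ R y z)) : roots (add R x y) S = roots R S := by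
  classical
  unfold roots
  congr 1
  ext a
  simp only [mem_filter]
  constructor
  · rintro ⟨h1, h2⟩
    exact ⟨h1, fun z hz h => h2 z hz (Or.inl h)⟩
  · rintro ⟨h1, h2⟩
    refine ⟨h1, ?_⟩
    rintro z hz (h | ⟨_, h4⟩)
    · exact h2 z hz h
    · exact hy z hz h4

/-- **Fussenegger-Gabow**: the sum over all candidates `T` for the top set is at most `2^(b+1)`. -/
theorem Win.fg {t : ℕ} {X : Finset ι} {f : Finset ι → ℕ} {R : ι → ι → Prop} {b : ℕ}
    (h : Win t X f R b) : fgSum t X R f ≤ 2 ^ (b + 1) := by
  classical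
  induction h with
  | done c T hc hTX hcT hT hR hB hf =>
    rename_i R b
    unfold fgSum
    have huniq : ∀ T', Up t X R T' → T' = T := by
      intro T' hT'
      by_contra hne
      have : ∃ x ∈ T', x ∉ T := by
        by_contra hcon
        push Not at hcon
        exact hne (eq_of_subset_of_card_le hcon (by have := hT'.card; omega))
      obtain ⟨x, hx, hxT⟩ := this
      have hcT' : c ∈ T' := by
        by_cases hxc : x = c
        · rwa [← hxc]
        · exact hT'.up x hx c hc (hB x (hT'.sub hx) hxc hxT)
      have hsub : insert c T ⊆ T' := by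
        intro z hz
        rcases mem_insert.1 hz with rfl | hz
        · exact hcT'
        · exact hT'.up c hcT' z (hTX hz) (hR z hz)
      have h1 := card_le_card hsub
      rw [card_insert_of_notMem hcT] at h1
      have := hT'.card
      omega
    have hr : roots R (X \ T) ≤ 1 := by
      unfold roots
      refine (card_le_card (t := {c}) ?_).trans (by simp)
      intro z hz
      rw [mem_filter, mem_sdiff] at hz
      rw [mem_singleton]
      by_contra hzc
      exact hz.2 c (mem_sdiff.2 ⟨hc, hcT⟩) (hB z hz.1.1 hzc hz.1.2)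
    calc _ ≤ ∑ T' ∈ ({T} : Finset (Finset ι)), 2 ^ (f T' + roots R (X \ T')) := by
            refine sum_le_sum_of_subset ?_
            intro T' hT'
            rw [mem_filter] at hT'
            rw [mem_singleton]
            exact huniq T' hT'.2
      _ = 2 ^ (f T + roots R (X \ T)) := by simp
      _ ≤ 2 ^ (b + 1) := Nat.pow_le_pow_right (by norm_num) (by omega)
  | ask x y hx hy hxy h1 h2 ih1 ih2 =>
    rename_i R b
    have hkey : fgSum t X R f ≤ fgSum t X (add R x y) f + fgSum t X (add R y x) f := by
      unfold fgSum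
      have e1 : ∀ Q : ι → ι → Prop,
          ∑ T ∈ X.powerset.filter (fun T => Up t X Q T), 2 ^ (f T + roots Q (X \ T)) =
          ∑ T ∈ X.powerset, if Up t X Q T then 2 ^ (f T + roots Q (X \ T)) else 0 := by
        intro Q
        rw [sum_filter]
      rw [e1, e1, e1, ← sum_add_distrib]
      refine sum_le_sum ?_
      intro T _
      by_cases hUp : Up t X R T
      · rw [if_pos hUp]
        -- `T` stays an up-set unless the smaller element is in `T` and the larger is not
        have up' : ∀ x y, (y ∈ T ∨ x ∉ T) → y ∈ X → x ∈ X → Up t X (add R x y) T := by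
          intro x y hh hy hx
          refine ⟨hUp.sub, hUp.card, ?_⟩
          rintro p hp q hq (h | ⟨h3, h4⟩)
          · exact hUp.up p hp q hq h
          · have hxT : x ∈ T := by
              rcases h3 with h3 | h3
              · exact h3 ▸ hp
              · exact hUp.up p hp x hx h3
            have hyT : y ∈ T := by tauto
            rcases h4 with h4 | h4
            · exact h4 ▸ hyT
            · exact hUp.up y hyT q hq h4
        have same : ∀ x y, y ∈ T → y ∈ X → roots (add R x y) (X \ T) = roots R (X \ T) := by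
          intro x y hyT hy
          refine roots_add_of_notMem ?_
          rintro z hz (h | h)
          · subst h
            exact (mem_sdiff.1 hz).2 hyT
          · exact (mem_sdiff.1 hz).2 (hUp.up y hyT z (mem_sdiff.1 hz).1 h)
        by_cases hyT : y ∈ T
        · rw [if_pos (up' x y (Or.inl hyT) hy hx), same x y hyT hy]
          exact Nat.le_add_right _ _
        · by_cases hxT : x ∈ T
          · rw [if_pos (up' y x (Or.inl hxT) hx hy), same y x hxT hx]
            exact Nat.le_add_left _ _
          · rw [if_pos (up' x y (Or.inr hxT) hy hx), if_pos (up' y x (Or.inr hyT) hx hy)]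
            have r1 : roots R (X \ T) ≤ roots (add R x y) (X \ T) + 1 :=
              roots_add (mem_sdiff.2 ⟨hx, hxT⟩) (mem_sdiff.2 ⟨hy, hyT⟩)
            have r2 : roots R (X \ T) ≤ roots (add R y x) (X \ T) + 1 :=
              roots_add (mem_sdiff.2 ⟨hy, hyT⟩) (mem_sdiff.2 ⟨hx, hxT⟩)
            rcases Nat.eq_zero_or_pos (roots R (X \ T)) with h0 | h0
            · rw [h0]
              exact (Nat.pow_le_pow_right (by norm_num) (by omega)).trans (Nat.le_add_right _ _)
            · obtain ⟨r, hr⟩ : ∃ r, roots R (X \ T) = r + 1 :=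
                ⟨roots R (X \ T) - 1, by omega⟩
              rw [hr]
              have q1 : 2 ^ (f T + r) ≤ 2 ^ (f T + roots (add R x y) (X \ T)) :=
                Nat.pow_le_pow_right (by norm_num) (by omega)
              have q2 : 2 ^ (f T + r) ≤ 2 ^ (f T + roots (add R y x) (X \ T)) :=
                Nat.pow_le_pow_right (by norm_num) (by omega)
              calc 2 ^ (f T + (r + 1)) = 2 ^ (f T + r) + 2 ^ (f T + r) := by ring
                _ ≤ _ := Nat.add_le_add q1 q2
      · rw [if_neg hUp]
        exact Nat.zero_le _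
    calc _ ≤ _ := hkey
      _ ≤ 2 ^ (b + 1) + 2 ^ (b + 1) := Nat.add_le_add ih1 ih2
      _ = 2 ^ (b + 1 + 1) := by ring

end Pool.Agent.Sel
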