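import Mathlib
import Pool.Agent.H24.Sel.Lemmas
import Pool.Agent.H24.Sel.Esymm

/-!
# The leaf lemma of the fluid game
-/

set_option linter.unusedSectionVars false

namespace Pool.Agent.Sel

open Finset

variable {ι : Type*} [DecidableEq ι]

/-- `T` is an up-set of `P` with at most `t - 1` elements. -/
def PUp (t : ℕ) (P : Finset ι) (R : ι → ι → Prop) (T : Finset ι) : Prop :=
  T.card < t ∧ ∀ a ∈ T, ∀ c ∈ P, R a c → c ∈ T

/-- coefficient of the fluid: `2 e_i`, a lower bound for masses `≤ 1` with sum `F/2`. -/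
def fl (F i : ℕ) : ℕ := 2 * (F / 2).choose i + (F % 2) * cc (F / 2) i

/-- The potential of a state with solids `P` (weights `w`) and `F` half units of fluid, times
`2^(t+1)`. -/
noncomputable def leafSum (t : ℕ) (P : Finset ι) (R : ι → ι → Prop) (w : ι → ℕ) (F : ℕ) : ℕ := by
  classical
  exact ∑ T ∈ P.powerset.filter (fun T => PUp t P R T),
    2 ^ T.card * fl F (t - 1 - T.card) * 2 ^ ((∑ x ∈ T, w x) + roots R (P \ T))

theorem roots_union {R : ι → ι → Prop} {P L T S : Finset ι} (hPL : Disjoint P L) (hT : T ⊆ P)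
    (hS : S ⊆ L) (hRP : ∀ a ∈ P ∪ L, ∀ c ∈ P ∪ L, R a c → a ∈ P ∧ c ∈ P) :
    roots R ((P ∪ L) \ (T ∪ S)) = roots R (P \ T) + (L \ S).card := by
  classical
  unfold roots
  rw [← card_union_of_disjoint]
  · congr 1
    ext x
    simp only [mem_filter, mem_sdiff, mem_union]
    rw [disjoint_left] at hPL
    constructor
    · rintro ⟨⟨h1 | h1, h2⟩, h3⟩
      · left
        refine ⟨⟨h1, fun h => h2 (Or.inl h)⟩, ?_⟩
        rintro z ⟨hz1, hz2⟩
        refine h3 z ⟨Or.inl hz1, ?_⟩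
        rintro (h | h)
        · exact hz2 h
        · exact hPL hz1 (hS h)
      · right
        exact ⟨h1, fun h => h2 (Or.inr h)⟩
    · rintro (⟨⟨h1, h2⟩, h3⟩ | ⟨h1, h2⟩)
      · refine ⟨⟨Or.inl h1, ?_⟩, ?_⟩
        · rintro (h | h)
          · exact h2 h
          · exact hPL h1 (hS h)
        · rintro z ⟨hz1, hz2⟩ hxz
          have hzP := (hRP x (mem_union_left _ h1) z (mem_union.2 hz1) hxz).2
          exact h3 z ⟨hzP, fun h => hz2 (Or.inl h)⟩ hxz
      · refine ⟨⟨Or.inr h1, ?_⟩, ?_⟩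
        · rintro (h | h)
          · exact hPL (hT h) h1
          · exact h2 h
        · rintro z ⟨hz1, hz2⟩ hxz
          exact hPL (hRP x (mem_union_right _ h1) z (mem_union.2 hz1) hxz).1 h1
  · rw [disjoint_left] at hPL ⊢
    intro x hx hx2
    rw [mem_filter, mem_sdiff] at hx
    exact hPL hx.1.1 (mem_sdiff.1 hx2).1

theorem Win.leaf {t j m B F : ℕ} {P L : Finset ι} (hPL : Disjoint P L) {R : ι → ι → Prop}
    (hRP : ∀ a ∈ P ∪ L, ∀ c ∈ P ∪ L, R a c → a ∈ P ∧ c ∈ P) {w' w : ι → ℕ}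
    (hw : ∀ a ∈ P, j + w a ≤ w' a) (hl : ∀ l ∈ L, w' l ≤ j)
    (hF : F * 2 ^ j ≤ 2 * ∑ l ∈ L, 2 ^ (w' l)) (hB : B + t + 1 ≤ L.card + (t - 1) * j + m)
    (hwin : Win t (P ∪ L) (fun T => ∑ x ∈ T, w' x) R B) :
    leafSum t P R w F ≤ 2 ^ m := by
  classical
  have h1 := hwin.fg
  -- masses
  set μ : ι → ℚ := fun l => (2 : ℚ) ^ (w' l) / 2 ^ j with hμ
  have hμ0 : ∀ l ∈ L, 0 ≤ μ l := fun l _ => by positivity
  have hμ1 : ∀ l ∈ L, μ l ≤ 1 := by
    intro l hl1
    rw [hμ]
    simp only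
    rw [div_le_one (by positivity)]
    exact pow_le_pow_right₀ (by norm_num) (hl l hl1)
  have hμF : (F : ℚ) ≤ 2 * ∑ l ∈ L, μ l := by
    have h2 : (F : ℚ) * 2 ^ j ≤ 2 * ∑ l ∈ L, (2 : ℚ) ^ (w' l) := by exact_mod_cast hF
    have h3 : ∑ l ∈ L, μ l = (∑ l ∈ L, (2 : ℚ) ^ (w' l)) / 2 ^ j := by
      rw [sum_div]
    rw [h3, ← mul_div_assoc, le_div_iff₀ (by positivity)]
    exact h2
  -- lower bound of the sum over pairs
  have h2 : ∑ T ∈ P.powerset.filter (fun T => PUp t P R T),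
      ∑ S ∈ L.powersetCard (t - 1 - T.card),
        2 ^ ((∑ x ∈ T ∪ S, w' x) + roots R ((P ∪ L) \ (T ∪ S))) ≤
      fgSum t (P ∪ L) R (fun T => ∑ x ∈ T, w' x) := by
    unfold fgSum
    rw [sum_sigma']
    rw [disjoint_left] at hPL
    refine le_of_eq_of_le (sum_image (g := fun p : (Σ _ : Finset ι, Finset ι) => p.1 ∪ p.2)
      (f := fun T => 2 ^ ((∑ x ∈ T, w' x) + roots R ((P ∪ L) \ T))) ?_).symm ?_
    · rintro ⟨T, S⟩ hTS ⟨T', S'⟩ hTS' heq
      simp only [coe_sigma, Set.mem_sigma_iff, mem_coe, mem_filter, mem_powerset,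
        mem_powersetCard] at hTS hTS'
      simp only at heq
      have e1 : ∀ T S : Finset ι, T ⊆ P → S ⊆ L → (T ∪ S) ∩ P = T ∧ (T ∪ S) ∩ L = S := by
        intro T S hT hS
        constructor
        · ext x
          simp only [mem_inter, mem_union]
          constructor
          · rintro ⟨h | h, h'⟩
            · exact h
            · exact absurd (hS h) (hPL h')
          · exact fun h => ⟨Or.inl h, hT h⟩
        · ext x
          simp only [mem_inter, mem_union]
          constructor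
          · rintro ⟨h | h, h'⟩
            · exact absurd h' (hPL (hT h))
            · exact h
          · exact fun h => ⟨Or.inr h, hS h⟩
      have a1 := e1 T S hTS.1.1 hTS.2.1
      have a2 := e1 T' S' hTS'.1.1 hTS'.2.1
      have b1 : T = T' := by rw [← a1.1, ← a2.1, heq]
      have b2 : S = S' := by rw [← a1.2, ← a2.2, heq]
      subst b1
      subst b2
      rfl
    · refine sum_le_sum_of_subset ?_
      intro Q hQ
      rw [mem_image] at hQ
      obtain ⟨⟨T, S⟩, hTS, rfl⟩ := hQ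
      simp only [mem_sigma, mem_filter, mem_powerset, mem_powersetCard] at hTS
      obtain ⟨⟨hTP, hTc, hTup⟩, hSL, hSc⟩ := hTS
      simp only [mem_filter, mem_powerset]
      have hdis : Disjoint T S := by
        rw [disjoint_left]
        exact fun x hx hx' => hPL (hTP hx) (hSL hx')
      refine ⟨union_subset_union hTP hSL, union_subset_union hTP hSL, ?_, ?_⟩
      · rw [card_union_of_disjoint hdis]
        omega
      · intro a ha c hc hac
        have hh := hRP a (union_subset_union hTP hSL ha) c hc hac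
        have haT : a ∈ T := by
          rcases mem_union.1 ha with h | h
          · exact h
          · exact absurd (hSL h) (hPL hh.1)
        exact mem_union_left _ (hTup a haT c hh.2 hac)
  -- each inner sum
  have h3 : ∀ T ∈ P.powerset.filter (fun T => PUp t P R T),
      (2 : ℚ) ^ (L.card + (t - 1) * j) *
        ((2 ^ T.card * fl F (t - 1 - T.card) * 2 ^ ((∑ x ∈ T, w x) + roots R (P \ T)) : ℕ) : ℚ) ≤
      2 ^ t * ((∑ S ∈ L.powersetCard (t - 1 - T.card),
        2 ^ ((∑ x ∈ T ∪ S, w' x) + roots R ((P ∪ L) \ (T ∪ S))) : ℕ) : ℚ) := by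
    intro T hT
    rw [mem_filter, mem_powerset] at hT
    obtain ⟨hTP, hTc, hTup⟩ := hT
    set i := t - 1 - T.card with hi
    have hhalf := es_ge_half μ L hμ0 hμ1 F hμF i
    have hsum : (2 : ℚ) ^ ((∑ x ∈ T, w' x) + roots R (P \ T)) * (2 : ℚ) ^ L.card *
        (2 : ℚ) ^ (j * i) * es μ L i = 2 ^ i *
        ((∑ S ∈ L.powersetCard i,
        2 ^ ((∑ x ∈ T ∪ S, w' x) + roots R ((P ∪ L) \ (T ∪ S))) : ℕ) : ℚ) := by
      unfold es
      push_cast
      rw [mul_sum, mul_sum]
      refine sum_congr rfl ?_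
      intro S hS
      rw [mem_powersetCard] at hS
      have hdis : Disjoint T S := by
        rw [disjoint_left] at hPL ⊢
        exact fun x hx hx' => hPL (hTP hx) (hS.1 hx')
      rw [roots_union hPL hTP hS.1 hRP, sum_union hdis, card_sdiff_of_subset hS.1, hS.2]
      have e1 : ∏ l ∈ S, μ l = (2 : ℚ) ^ (∑ x ∈ S, w' x) / 2 ^ (j * i) := by
        rw [hμ]
        simp only
        rw [prod_div_distrib, prod_pow_eq_pow_sum, prod_const, hS.2, ← pow_mul]
      rw [e1]
      have hiL : i ≤ L.card := by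
        rw [← hS.2]
        exact card_le_card hS.1
      have e2 : (2 : ℚ) ^ L.card = 2 ^ i * 2 ^ (L.card - i) := by
        rw [← pow_add]
        congr 1
        omega
      rw [e2]
      field_simp
      ring
    have hw2 : j * T.card + ∑ x ∈ T, w x ≤ ∑ x ∈ T, w' x := by
      calc j * T.card + ∑ x ∈ T, w x = ∑ x ∈ T, (j + w x) := by
            rw [sum_add_distrib, sum_const, smul_eq_mul, mul_comm]
        _ ≤ _ := sum_le_sum fun x hx => hw x (hTP hx)
    have hcard : i + T.card + 1 = t := by omega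
    -- assemble
    have hpos : (0 : ℚ) < 2 ^ i := by positivity
    have hes : ((fl F i : ℕ) : ℚ) ≤ 2 * es μ L i := by
      unfold fl
      exact hhalf
    have key : (2 : ℚ) ^ (L.card + (t - 1) * j) *
        ((2 : ℚ) ^ T.card * (fl F i : ℚ) * 2 ^ ((∑ x ∈ T, w x) + roots R (P \ T))) * 2 ^ i ≤
        2 ^ t * ((2 : ℚ) ^ ((∑ x ∈ T, w' x) + roots R (P \ T)) * (2 : ℚ) ^ L.card *
        (2 : ℚ) ^ (j * i) * es μ L i) := by
      have e3 : (2 : ℚ) ^ (L.card + (t - 1) * j) *
          ((2 : ℚ) ^ T.card * (fl F i : ℚ) * 2 ^ ((∑ x ∈ T, w x) + roots R (P \ T))) * 2 ^ i =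
          ((2 : ℚ) ^ (T.card + i) * 2 ^ L.card * 2 ^ (j * i) * 2 ^ (roots R (P \ T))) *
          (2 ^ (j * T.card + ∑ x ∈ T, w x) * (fl F i : ℚ)) := by
        have e4 : (t - 1) * j = j * i + j * T.card := by
          have : t - 1 = i + T.card := by omega
          rw [this]
          ring
        rw [e4]
        simp only [pow_add]
        ring
      have e5 : (2 : ℚ) ^ t * ((2 : ℚ) ^ ((∑ x ∈ T, w' x) + roots R (P \ T)) * (2 : ℚ) ^ L.card *
          (2 : ℚ) ^ (j * i) * es μ L i) =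
          ((2 : ℚ) ^ (T.card + i) * 2 ^ L.card * 2 ^ (j * i) * 2 ^ (roots R (P \ T))) *
          (2 ^ (∑ x ∈ T, w' x) * (2 * es μ L i)) := by
        have e6 : (2 : ℚ) ^ t = 2 ^ (T.card + i) * 2 := by
          rw [← pow_succ]
          congr 1
          omega
        rw [e6, pow_add 2 (∑ x ∈ T, w' x)]
        ring
      rw [e3, e5]
      refine mul_le_mul_of_nonneg_left ?_ (by positivity)
      refine mul_le_mul ?_ hes (by positivity) (by positivity)
      exact pow_le_pow_right₀ (by norm_num) hw2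
    rw [hsum] at key
    have key2 : ((2 : ℚ) ^ (L.card + (t - 1) * j) *
        ((2 : ℚ) ^ T.card * (fl F i : ℚ) * 2 ^ ((∑ x ∈ T, w x) + roots R (P \ T)))) * 2 ^ i ≤
        (2 ^ t * ((∑ S ∈ L.powersetCard i,
        2 ^ ((∑ x ∈ T ∪ S, w' x) + roots R ((P ∪ L) \ (T ∪ S))) : ℕ) : ℚ)) * 2 ^ i := by
      calc _ ≤ _ := key
        _ = _ := by ring
    have key3 := le_of_mul_le_mul_right key2 hpos
    push_cast
    push_cast at key3
    exact key3
  have h4 : (2 : ℚ) ^ (L.card + (t - 1) * j) * ((leafSum t P R w F : ℕ) : ℚ) ≤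
      2 ^ t * ((fgSum t (P ∪ L) R (fun T => ∑ x ∈ T, w' x) : ℕ) : ℚ) := by
    calc (2 : ℚ) ^ (L.card + (t - 1) * j) * ((leafSum t P R w F : ℕ) : ℚ) =
        ∑ T ∈ P.powerset.filter (fun T => PUp t P R T), (2 : ℚ) ^ (L.card + (t - 1) * j) *
        ((2 ^ T.card * fl F (t - 1 - T.card) * 2 ^ ((∑ x ∈ T, w x) + roots R (P \ T)) : ℕ) : ℚ) := by
          unfold leafSum
          push_cast
          rw [mul_sum]
      _ ≤ ∑ T ∈ P.powerset.filter (fun T => PUp t P R T),
          2 ^ t * ((∑ S ∈ L.powersetCard (t - 1 - T.card),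
          2 ^ ((∑ x ∈ T ∪ S, w' x) + roots R ((P ∪ L) \ (T ∪ S))) : ℕ) : ℚ) := sum_le_sum h3
      _ = 2 ^ t * ((∑ T ∈ P.powerset.filter (fun T => PUp t P R T),
          ∑ S ∈ L.powersetCard (t - 1 - T.card),
          2 ^ ((∑ x ∈ T ∪ S, w' x) + roots R ((P ∪ L) \ (T ∪ S))) : ℕ) : ℚ) := by
          push_cast
          rw [mul_sum]
      _ ≤ _ := by
          refine mul_le_mul_of_nonneg_left ?_ (by positivity)
          exact_mod_cast h2
  have h6 : (2 : ℚ) ^ (L.card + (t - 1) * j) * ((leafSum t P R w F : ℕ) : ℚ) ≤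
      (2 : ℚ) ^ (L.card + (t - 1) * j) * 2 ^ m := by
    calc _ ≤ _ := h4
      _ ≤ 2 ^ t * ((2 ^ (B + 1) : ℕ) : ℚ) :=
        mul_le_mul_of_nonneg_left (by exact_mod_cast h1) (by positivity)
      _ = 2 ^ (B + t + 1) := by push_cast; ring
      _ ≤ 2 ^ (L.card + (t - 1) * j + m) := pow_le_pow_right₀ (by norm_num) hB
      _ = _ := by ring
  have h7 := le_of_mul_le_mul_left h6 (by positivity)
  exact_mod_cast h7

end Pool.Agent.Sel
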