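import Mathlib
import Pool.Agent.H24.Sel.Leaf
import Pool.Agent.H14.Sel.Fluid

/-!
# The leaf lemma for abstract states
-/

set_option linter.unusedSectionVars false

namespace Pool.Agent.Sel

open Finset

variable {ι : Type*} [DecidableEq ι]

/-- The potential of the abstract state is too large. -/
def Leaf (e : AS) : Prop := 2 ^ ((e.b + e.t + 1).toNat) < leafSum e.t e.S e.rel e.w e.F

/-- The potential only depends on the isomorphism type and is monotone in the weights. -/
theorem leafSum_image_le {t F : ℕ} {S : Finset ℕ} {rel : ℕ → ℕ → Prop} {w : ℕ → ℕ} {φ : ℕ → ι}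
    {R : ι → ι → Prop} {w' : ι → ℕ} (inj : ∀ a ∈ S, ∀ b ∈ S, φ a = φ b → a = b)
    (hrel : ∀ a ∈ S, ∀ b ∈ S, (R (φ a) (φ b) ↔ rel a b)) (hw : ∀ a ∈ S, w a ≤ w' (φ a)) :
    leafSum t S rel w F ≤ leafSum t (S.image φ) R w' F := by
  classical
  unfold leafSum
  have hinjT : ∀ T ⊆ S, (T.image φ).card = T.card := by
    intro T hT
    refine card_image_of_injOn ?_
    intro a ha b hb hab
    exact inj a (hT (by simpa using ha)) b (hT (by simpa using hb)) hab
  have hmem : ∀ T ⊆ S, ∀ a ∈ S, (φ a ∈ T.image φ ↔ a ∈ T) := by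
    intro T hT a ha
    rw [mem_image]
    constructor
    · rintro ⟨b, hb, hba⟩
      rwa [← inj b (hT hb) a ha hba]
    · exact fun h => ⟨a, h, rfl⟩
  have hroots : ∀ T ⊆ S, roots R (S.image φ \ T.image φ) = roots rel (S \ T) := by
    intro T hT
    unfold roots
    rw [← card_image_of_injOn (f := φ) (s := (S \ T).filter (fun x => ∀ z ∈ S \ T, ¬ rel x z))]
    · congr 1
      ext x
      simp only [mem_filter, mem_sdiff, mem_image]
      constructor
      · rintro ⟨⟨⟨a, ha, rfl⟩, h2⟩, h3⟩
        have haT : a ∉ T := fun h => h2 ⟨a, h, rfl⟩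
        refine ⟨a, ⟨⟨ha, haT⟩, ?_⟩, rfl⟩
        rintro z ⟨hz1, hz2⟩ haz
        refine h3 (φ z) ⟨⟨z, hz1, rfl⟩, ?_⟩ ((hrel a ha z hz1).2 haz)
        rintro ⟨y, hy, hyz⟩
        exact hz2 (by rwa [← inj y (hT hy) z hz1 hyz])
      · rintro ⟨a, ⟨⟨ha, haT⟩, h3⟩, rfl⟩
        refine ⟨⟨⟨a, ha, rfl⟩, ?_⟩, ?_⟩
        · rintro ⟨y, hy, hya⟩
          exact haT (by rwa [← inj y (hT hy) a ha hya])
        · rintro _ ⟨⟨z, hz, rfl⟩, hz2⟩ haz
          refine h3 z ⟨hz, ?_⟩ ((hrel a ha z hz).1 haz)
          intro hzT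
          exact hz2 ⟨z, hzT, rfl⟩
    · intro a ha b hb hab
      simp only [coe_filter, mem_sdiff, Set.mem_ofPred_eq] at ha hb
      exact inj a ha.1.1 b hb.1.1 hab
  -- compare term by term
  have hinj2 : Set.InjOn (fun T : Finset ℕ => T.image φ)
      (S.powerset.filter (fun T => PUp t S rel T) : Finset (Finset ℕ)) := by
    intro T hT T' hT' heq
    simp only [coe_filter, mem_powerset, Set.mem_ofPred_eq] at hT hT'
    simp only at heq
    ext a
    constructor
    · intro ha
      rw [← hmem T' hT'.1 a (hT.1 ha), ← heq]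
      exact mem_image_of_mem φ ha
    · intro ha
      rw [← hmem T hT.1 a (hT'.1 ha), heq]
      exact mem_image_of_mem φ ha
  calc ∑ T ∈ S.powerset.filter (fun T => PUp t S rel T),
      2 ^ T.card * fl F (t - 1 - T.card) * 2 ^ ((∑ x ∈ T, w x) + roots rel (S \ T)) ≤
      ∑ T ∈ S.powerset.filter (fun T => PUp t S rel T),
      2 ^ (T.image φ).card * fl F (t - 1 - (T.image φ).card) *
        2 ^ ((∑ x ∈ T.image φ, w' x) + roots R (S.image φ \ T.image φ)) := by
        refine sum_le_sum ?_
        intro T hT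
        rw [mem_filter, mem_powerset] at hT
        rw [hinjT T hT.1, hroots T hT.1]
        refine Nat.mul_le_mul_left _ (Nat.pow_le_pow_right (by norm_num) ?_)
        refine Nat.add_le_add_right ?_ _
        rw [sum_image (fun a ha b hb hab => inj a (hT.1 ha) b (hT.1 hb) hab)]
        exact sum_le_sum fun a ha => hw a (hT.1 ha)
    _ = ∑ T ∈ (S.powerset.filter (fun T => PUp t S rel T)).image (fun T => T.image φ),
      2 ^ T.card * fl F (t - 1 - T.card) *
        2 ^ ((∑ x ∈ T, w' x) + roots R (S.image φ \ T)) := by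
        rw [sum_image hinj2]
    _ ≤ _ := by
        refine sum_le_sum_of_subset ?_
        intro Q hQ
        rw [mem_image] at hQ
        obtain ⟨T, hT, rfl⟩ := hQ
        rw [mem_filter, mem_powerset] at hT ⊢
        refine ⟨image_subset_image hT.1, ?_, ?_⟩
        · rw [hinjT T hT.1]
          exact hT.2.1
        · intro x hx y hy hxy
          rw [mem_image] at hx hy
          obtain ⟨a, ha, rfl⟩ := hx
          obtain ⟨c, hc, rfl⟩ := hy
          exact mem_image_of_mem φ (hT.2.2 a ha c hc ((hrel a (hT.1 ha) c hc).1 hxy))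

/-- **Leaf lemma.** -/
theorem leaf {j B : ℕ} {e : AS} (hleaf : Leaf e) : ¬ RW ι j B e := by
  classical
  rintro ⟨X, R, v, φ, hrz, hwin, hB⟩
  set P := e.S.image φ with hP
  set L := X \ P with hL
  have hPX : P ⊆ X := hrz.image_sub
  have hX : P ∪ L = X := by
    rw [hL]
    exact union_sdiff_of_subset hPX
  have hPL : Disjoint P L := by
    rw [hL]
    exact disjoint_sdiff
  have ht : 1 ≤ e.t := by
    by_contra ht
    have ht0 : e.t = 0 := by omega
    unfold Leaf leafSum at hleaf
    rw [ht0] at hleaf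
    rw [Finset.filter_false_of_mem] at hleaf
    · simp at hleaf
    · rintro T _ ⟨h1, _⟩
      omega
  -- cap the weights of the lights
  set v' : ι → ℕ := fun x => if x ∈ L then min (v x) j else v x with hv'
  have hwin' : Win e.t (P ∪ L) (fun T => ∑ x ∈ T, v' x) R B := by
    rw [hX]
    refine hwin.mono_f _ hrz.so ?_
    intro T _
    unfold sw
    refine sum_le_sum ?_
    intro x _
    rw [hv']
    simp only
    split_ifs
    · exact min_le_left _ _
    · exact le_rfl
  have hRP : ∀ a ∈ P ∪ L, ∀ c ∈ P ∪ L, R a c → a ∈ P ∧ c ∈ P := by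
    intro a ha c hc hac
    rw [hX] at ha hc
    constructor
    · by_contra h
      exact hrz.lt1 a (mem_sdiff.2 ⟨ha, h⟩) c hc hac
    · by_contra h
      exact hrz.lt2 c (mem_sdiff.2 ⟨hc, h⟩) a ha hac
  have hjP : ∀ a ∈ P, j ≤ v a ∧ v' a = v a := by
    intro a ha
    have haL : a ∉ L := fun h => (disjoint_left.1 hPL) ha h
    have h1 : v' a = v a := by
      rw [hv']
      simp only
      rw [if_neg haL]
    refine ⟨?_, h1⟩
    rw [hP, mem_image] at ha
    obtain ⟨s, hs, rfl⟩ := ha
    have := hrz.hw s hs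
    omega
  have hsum : leafSum e.t P R (fun x => v' x - j) e.F ≤ 2 ^ ((e.b + e.t + 1).toNat) := by
    refine Win.leaf (j := j) (B := B) (w' := v') hPL hRP ?_ ?_ ?_ ?_ hwin'
    · intro a ha
      have := hjP a ha
      omega
    · intro l hl
      rw [hv']
      simp only
      rw [if_pos hl]
      exact min_le_right _ _
    · refine hrz.mass.trans (le_of_eq ?_)
      congr 1
      refine sum_congr rfl ?_
      intro l hl
      rw [hv']
      simp only
      rw [if_pos hl]
    · have h1 : ((e.t : ℤ) - 1) * j = (((e.t - 1) * j : ℕ) : ℤ) := by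
        push_cast [Nat.cast_sub ht]
        ring
      rw [h1] at hB
      have h2 : (e.b + e.t + 1) ≤ ((e.b + e.t + 1).toNat : ℤ) := Int.self_le_toNat _
      zify
      push_cast at hB h2 ⊢
      have h3 : (B : ℤ) ≤ (L.card : ℤ) + ((e.t - 1 : ℕ) : ℤ) * (j : ℤ) + e.b := by
        exact_mod_cast hB
      linarith
  have h3 : leafSum e.t e.S e.rel e.w e.F ≤ leafSum e.t P R (fun x => v' x - j) e.F := by
    refine leafSum_image_le hrz.inj hrz.rel ?_
    intro a ha
    have h4 := hrz.hw a ha
    have h5 := hjP (φ a) (mem_image_of_mem φ ha)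
    omega
  unfold Leaf at hleaf
  omega

end Pool.Agent.Sel
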