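import Mathlib
import Pool.Agent.H24.Sel.LeafAS

/-!
# Evaluation of the leaf potential with bit masks
-/

set_option linter.unusedSectionVars false

namespace Pool.Agent.Sel

open Finset

/-- Mask of the elements above `a`. -/
def upA (l : List (ℕ × ℕ)) (a : ℕ) : ℕ := (l.getD a (0, 0)).1

/-- Weight of `a`. -/
def wA (l : List (ℕ × ℕ)) (a : ℕ) : ℕ := (l.getD a (0, 0)).2

/-- The abstract state of a list of pairs (mask of the elements above, weight). -/
def toAS (l : List (ℕ × ℕ)) (F t : ℕ) (b : ℤ) : AS :=
  ⟨range l.length, fun a c => (upA l a).testBit c = true, wA l, F, t, b⟩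

/-- Number of the elements `i, i+1, ..` outside of `T` all of whose uppers are in `T`. -/
def rootsN (T : ℕ) : List (ℕ × ℕ) → ℕ → ℕ
  | [], _ => 0
  | e :: l, i => (bif T.testBit i then 0 else bif Nat.beq (e.1 &&& T) e.1 then 1 else 0) +
      rootsN T l (i + 1)

/-- The contribution of one up-set. -/
def term (all : List (ℕ × ℕ)) (F t T c ws : ℕ) : ℕ :=
  2 ^ c * fl F (t - 1 - c) * 2 ^ (ws + rootsN T all 0)

/-- The sum over all proper extensions of `T` by elements of the rest. -/
def ext (all : List (ℕ × ℕ)) (F t : ℕ) : List (ℕ × ℕ) → ℕ → ℕ → ℕ → ℕ → ℕ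
  | [], _, _, _, _ => 0
  | e :: l, i, T, c, ws => ext all F t l (i + 1) T c ws +
      bif Nat.ble (c + 2) t && Nat.beq (e.1 &&& T) e.1 then
        term all F t (T ||| 2 ^ i) (c + 1) (ws + e.2) +
          ext all F t l (i + 1) (T ||| 2 ^ i) (c + 1) (ws + e.2)
      else 0

/-- The value of the potential. -/
def leafVal (l : List (ℕ × ℕ)) (F t : ℕ) : ℕ := term l F t 0 0 0 + ext l F t l 0 0 0 0

theorem land_eq_iff (u T : ℕ) : u &&& T = u ↔ ∀ i, u.testBit i = true → T.testBit i = true := by
  constructor
  · intro h i hi
    rw [← h, Nat.testBit_and] at hi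
    simpa using (Bool.and_eq_true _ _ ▸ hi : _ ∧ _).2
  · intro h
    refine Nat.eq_of_testBit_eq fun i => ?_
    rw [Nat.testBit_and]
    cases hu : u.testBit i with
    | false => simp
    | true => simp [h i hu]

/-- the set of a mask (bits below `m`) -/
def mset (m T : ℕ) : Finset ℕ := (range m).filter (fun i => T.testBit i = true)

theorem mem_mset {m T i : ℕ} : i ∈ mset m T ↔ i < m ∧ T.testBit i = true := by
  simp [mset]

theorem mset_or {m T i : ℕ} (hi : i < m) : mset m (T ||| 2 ^ i) = insert i (mset m T) := by
  ext j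
  rw [mem_mset, mem_insert, mem_mset, Nat.testBit_or, Nat.testBit_two_pow]
  by_cases hij : i = j
  · subst hij
    simp [hi]
  · simp [hij, Ne.symm hij]

theorem rootsN_eq (T : ℕ) (l : List (ℕ × ℕ)) : ∀ i, rootsN T l i = ∑ k ∈ range l.length,
    (bif T.testBit (i + k) then 0 else
      bif Nat.beq ((l.getD k (0, 0)).1 &&& T) (l.getD k (0, 0)).1 then 1 else 0) := by
  induction l with
  | nil => intro i; simp [rootsN]
  | cons e l ih =>
    intro i
    rw [rootsN, ih, List.length_cons, sum_range_succ']
    rw [add_comm]
    congr 1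
    refine sum_congr rfl fun k _ => ?_
    have : i + 1 + k = i + (k + 1) := by omega
    rw [this]
    simp

/-- The relation of a list state. -/
def relA (l : List (ℕ × ℕ)) : ℕ → ℕ → Prop := fun a c => (upA l a).testBit c = true

theorem rootsN_le (T : ℕ) (l : List (ℕ × ℕ)) :
    rootsN T l 0 ≤ roots (relA l) (range l.length \ mset l.length T) := by
  classical
  rw [rootsN_eq]
  unfold roots
  rw [card_filter, sdiff_eq_filter, sum_filter]
  refine sum_le_sum fun k hk => ?_
  rw [mem_range] at hk
  rw [zero_add]
  cases hT : T.testBit k with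
  | true => simp
  | false =>
    have h1 : k ∉ mset l.length T := by
      rw [mem_mset]
      simp [hT]
    rw [if_pos h1]
    cases hb : Nat.beq ((l.getD k (0, 0)).1 &&& T) (l.getD k (0, 0)).1 with
    | false => simp
    | true =>
      have h2 := (land_eq_iff _ _).1 (Nat.eq_of_beq_eq_true hb)
      rw [if_pos]
      · simp
      · intro z hz hkz
        rw [mem_filter, mem_range, mem_mset] at hz
        exact hz.2 ⟨hz.1, h2 z hkz⟩

/-- the value of an up-set -/
noncomputable def valS (l : List (ℕ × ℕ)) (F t : ℕ) (Q : Finset ℕ) : ℕ :=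
  2 ^ Q.card * fl F (t - 1 - Q.card) *
    2 ^ ((∑ x ∈ Q, wA l x) + roots (relA l) (range l.length \ Q))

theorem term_le (l : List (ℕ × ℕ)) (F t T c ws : ℕ) (hc : (mset l.length T).card = c)
    (hw : ∑ x ∈ mset l.length T, wA l x = ws) : term l F t T c ws ≤ valS l F t (mset l.length T) := by
  unfold term valS
  rw [hc, hw]
  refine Nat.mul_le_mul_left _ (Nat.pow_le_pow_right (by norm_num) ?_)
  exact Nat.add_le_add_left (rootsN_le T l) _

/-- the up-sets which extend `M` properly by elements `≥ i` -/
noncomputable def Fam (l : List (ℕ × ℕ)) (t i : ℕ) (M : Finset ℕ) : Finset (Finset ℕ) := by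
  classical
  exact (range l.length).powerset.filter (fun Q => PUp t (range l.length) (relA l) Q ∧ M ⊆ Q ∧
    Q ≠ M ∧ ∀ a ∈ Q, a ∉ M → i ≤ a)

theorem mem_Fam {l : List (ℕ × ℕ)} {t i : ℕ} {M Q : Finset ℕ} : Q ∈ Fam l t i M ↔
    Q ⊆ range l.length ∧ PUp t (range l.length) (relA l) Q ∧ M ⊆ Q ∧
    Q ≠ M ∧ ∀ a ∈ Q, a ∉ M → i ≤ a := by
  classical
  simp [Fam]

theorem ext_le (all : List (ℕ × ℕ)) (F t : ℕ) : ∀ (l : List (ℕ × ℕ)) (i T c ws : ℕ),
    all.drop i = l → PUp t (range all.length) (relA all) (mset all.length T) →
    (∀ a ∈ mset all.length T, a < i) → (mset all.length T).card = c →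
    ∑ x ∈ mset all.length T, wA all x = ws →
    ext all F t l i T c ws ≤ ∑ Q ∈ Fam all t i (mset all.length T), valS all F t Q := by
  classical
  intro l
  induction l with
  | nil => intro i T c ws _ _ _ _ _; exact Nat.zero_le _
  | cons e l ih =>
    intro i T c ws hdrop hUp hlt hc hw
    have hi : i < all.length := by
      by_contra h
      rw [List.drop_eq_nil_of_le (by omega)] at hdrop
      exact absurd hdrop (by simp)
    have he : all.getD i (0, 0) = e := by
      have h1 : all.drop i = all[i] :: all.drop (i + 1) := List.drop_eq_getElem_cons hi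
      rw [h1] at hdrop
      rw [List.getD_eq_getElem _ _ hi]
      exact (List.cons.inj hdrop).1
    have hdrop' : all.drop (i + 1) = l := by
      have h1 : all.drop i = all[i] :: all.drop (i + 1) := List.drop_eq_getElem_cons hi
      rw [h1] at hdrop
      exact (List.cons.inj hdrop).2
    set M := mset all.length T with hM
    have hiM : i ∉ M := fun h => lt_irrefl _ (hlt i h)
    have h1 := ih (i + 1) T c ws hdrop' hUp (fun a ha => (hlt a ha).trans (Nat.lt_succ_self i))
      hc hw
    rw [← hM] at h1
    rw [ext]
    have hsub1 : Fam all t (i + 1) M ⊆ Fam all t i M := by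
      intro Q hQ
      rw [mem_Fam] at hQ ⊢
      exact ⟨hQ.1, hQ.2.1, hQ.2.2.1, hQ.2.2.2.1, fun a ha h => (Nat.le_succ i).trans
        (hQ.2.2.2.2 a ha h)⟩
    cases hcond : (Nat.ble (c + 2) t && Nat.beq (e.1 &&& T) e.1) with
    | false =>
      simp only [cond_false, add_zero]
      exact h1.trans (sum_le_sum_of_subset hsub1)
    | true =>
      simp only [cond_true]
      rw [Bool.and_eq_true] at hcond
      have hct : c + 2 ≤ t := Nat.le_of_ble_eq_true hcond.1
      have hup := (land_eq_iff _ _).1 (Nat.eq_of_beq_eq_true hcond.2)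
      have hM' : mset all.length (T ||| 2 ^ i) = insert i M := mset_or hi
      have hUp' : PUp t (range all.length) (relA all) (insert i M) := by
        refine ⟨?_, ?_⟩
        · rw [card_insert_of_notMem hiM, hc]
          omega
        · intro a ha z hz haz
          rcases mem_insert.1 ha with rfl | ha
          · refine mem_insert_of_mem ?_
            rw [hM, mem_mset]
            refine ⟨mem_range.1 hz, hup z ?_⟩
            unfold relA upA at haz
            rwa [he] at haz
          · exact mem_insert_of_mem (hUp.2 a ha z hz haz)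
      have hc' : (insert i M).card = c + 1 := by
        rw [card_insert_of_notMem hiM, hc]
      have hw' : ∑ x ∈ insert i M, wA all x = ws + e.2 := by
        rw [sum_insert hiM, hw, add_comm]
        congr 1
        unfold wA
        rw [he]
      have h2 := ih (i + 1) (T ||| 2 ^ i) (c + 1) (ws + e.2) hdrop' (by rw [hM']; exact hUp')
        (by
          rw [hM']
          intro a ha
          rcases mem_insert.1 ha with rfl | ha
          · exact Nat.lt_succ_self a
          · exact (hlt a ha).trans (Nat.lt_succ_self i)) (by rw [hM', hc']) (by rw [hM', hw'])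
      have h3 := term_le all F t (T ||| 2 ^ i) (c + 1) (ws + e.2) (by rw [hM', hc'])
        (by rw [hM', hw'])
      rw [hM'] at h2 h3
      -- disjointness
      have hnot1 : insert i M ∉ Fam all t (i + 1) (insert i M) := by
        intro h
        exact (mem_Fam.1 h).2.2.2.1 rfl
      have hdisj : Disjoint (Fam all t (i + 1) M)
          (insert (insert i M) (Fam all t (i + 1) (insert i M))) := by
        rw [disjoint_left]
        intro Q hQ hQ'
        have hiQ : i ∈ Q := by
          rcases mem_insert.1 hQ' with rfl | hQ'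
          · exact mem_insert_self i M
          · exact (mem_Fam.1 hQ').2.2.1 (mem_insert_self i M)
        have := (mem_Fam.1 hQ).2.2.2.2 i hiQ hiM
        omega
      have hsub : Fam all t (i + 1) M ∪ insert (insert i M) (Fam all t (i + 1) (insert i M)) ⊆
          Fam all t i M := by
        refine union_subset hsub1 ?_
        intro Q hQ
        rcases mem_insert.1 hQ with rfl | hQ
        · rw [mem_Fam]
          refine ⟨?_, hUp', subset_insert i M, ?_, ?_⟩
          · intro a ha
            rcases mem_insert.1 ha with rfl | ha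
            · exact mem_range.2 hi
            · rw [hM, mem_mset] at ha
              exact mem_range.2 ha.1
          · intro h
            exact hiM (h ▸ mem_insert_self i M)
          · intro a ha haM
            rcases mem_insert.1 ha with rfl | ha
            · exact le_rfl
            · exact absurd ha haM
        · rw [mem_Fam] at hQ ⊢
          refine ⟨hQ.1, hQ.2.1, (subset_insert i M).trans hQ.2.2.1, ?_, ?_⟩
          · rintro rfl
            exact hiM (hQ.2.2.1 (mem_insert_self i _))
          · intro a ha haM
            by_cases hai : a = i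
            · exact hai.ge
            · exact (Nat.le_succ i).trans (hQ.2.2.2.2 a ha (by
                rw [mem_insert]
                tauto))
      calc _ ≤ (∑ Q ∈ Fam all t (i + 1) M, valS all F t Q) + (valS all F t (insert i M) +
            ∑ Q ∈ Fam all t (i + 1) (insert i M), valS all F t Q) :=
            Nat.add_le_add h1 (Nat.add_le_add h3 h2)
        _ = ∑ Q ∈ Fam all t (i + 1) M ∪ insert (insert i M) (Fam all t (i + 1) (insert i M)),
            valS all F t Q := by
            rw [sum_union hdisj, sum_insert hnot1]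
        _ ≤ _ := sum_le_sum_of_subset hsub

theorem leafVal_le (l : List (ℕ × ℕ)) (F t : ℕ) (ht : 1 ≤ t) :
    leafVal l F t ≤ leafSum t (range l.length) (relA l) (wA l) F := by
  classical
  have hM : mset l.length 0 = ∅ := by
    ext a
    simp [mem_mset]
  have hUp : PUp t (range l.length) (relA l) (mset l.length 0) := by
    rw [hM]
    exact ⟨by rw [card_empty]; omega, by simp⟩
  have h1 := ext_le l F t l 0 0 0 0 (by simp) hUp (by rw [hM]; simp) (by rw [hM]; simp)
    (by rw [hM]; simp)
  have h2 := term_le l F t 0 0 0 (by rw [hM]; simp) (by rw [hM]; simp)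
  rw [hM] at h1 h2 hUp
  have hnot : ∅ ∉ Fam l t 0 ∅ := by
    intro h
    exact (mem_Fam.1 h).2.2.2.1 rfl
  calc leafVal l F t ≤ valS l F t ∅ + ∑ Q ∈ Fam l t 0 ∅, valS l F t Q := Nat.add_le_add h2 h1
    _ = ∑ Q ∈ insert ∅ (Fam l t 0 ∅), valS l F t Q := by rw [sum_insert hnot]
    _ ≤ _ := by
        unfold leafSum
        refine sum_le_sum_of_subset ?_
        intro Q hQ
        rw [mem_filter, mem_powerset]
        rcases mem_insert.1 hQ with rfl | hQ
        · exact ⟨empty_subset _, hUp⟩
        · rw [mem_Fam] at hQ
          exact ⟨hQ.1, hQ.2.1⟩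

/-- The Boolean leaf test. -/
def leafOk (l : List (ℕ × ℕ)) (F t b : ℕ) : Bool :=
  Nat.ble 1 t && Nat.ble (2 ^ (b + t + 1) + 1) (leafVal l F t)

theorem leaf_of_leafOk {l : List (ℕ × ℕ)} {F t b : ℕ} (h : leafOk l F t b = true) :
    Leaf (toAS l F t b) := by
  unfold leafOk at h
  rw [Bool.and_eq_true] at h
  have h1 := Nat.le_of_ble_eq_true h.1
  have h2 := Nat.le_of_ble_eq_true h.2
  have h3 := leafVal_le l F t h1
  unfold Leaf
  have h4 : ((toAS l F t b).b + (toAS l F t b).t + 1).toNat = b + t + 1 := by
    show ((b : ℤ) + (t : ℤ) + 1).toNat = b + t + 1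
    omega
  rw [h4]
  show 2 ^ (b + t + 1) < leafSum t (range l.length) (relA l) (wA l) F
  omega

end Pool.Agent.Sel
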