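import Mathlib
import Pool.Agent.H24.Sel.LeafCheck
import Pool.Agent.H24.Sel.Lanes
import Pool.Agent.H8.Sel.CS

/-!
# The Boolean leaf test on the concrete states `CS`
-/

set_option linter.unusedSectionVars false

namespace Pool.Agent.Sel

open Finset

/-- Binomial coefficients by closed formulas (kernel friendly). -/
def chs (a : ℕ) : ℕ → ℕ
  | 0 => 1
  | 1 => a
  | 2 => a * (a - 1) / 2
  | 3 => a * (a - 1) * (a - 2) / 6
  | 4 => a * (a - 1) * (a - 2) * (a - 3) / 24
  | i + 5 => a.choose (i + 5)

theorem chs_eq (a i : ℕ) : chs a i = a.choose i := by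
  have h : ∀ i, a.choose i = a.descFactorial i / i.factorial :=
    fun i => Nat.choose_eq_descFactorial_div_factorial a i
  match i with
  | 0 => simp [chs]
  | 1 => simp [chs]
  | 2 =>
    rw [h]
    simp only [chs, Nat.descFactorial, Nat.factorial]
    congr 1
    ring_nf
    rw [Nat.sub_zero]
    ring
  | 3 =>
    rw [h]
    simp only [chs, Nat.descFactorial, Nat.factorial]
    congr 1
    rw [Nat.sub_zero]
    ring
  | 4 =>
    rw [h]
    simp only [chs, Nat.descFactorial, Nat.factorial]
    congr 1
    rw [Nat.sub_zero]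
    ring
  | i + 5 => rfl

/-- `fl` by closed formulas. -/
def flc (F : ℕ) : ℕ → ℕ
  | 0 => 2
  | i + 1 => 2 * chs (F / 2) (i + 1) + (F % 2) * chs (F / 2) i

theorem flc_eq (F i : ℕ) : flc F i = fl F i := by
  cases i with
  | zero => simp [flc, fl, cc]
  | succ i => simp [flc, fl, cc, chs_eq]

/-- The number of roots outside of the up-set `T` (`c` elements) of the state `S` (`m` elements) with
packed relation `U`, bit-parallel. -/
def rootsR (U S m T c : ℕ) : ℕ :=
  Nat.sub (Nat.sub m c) (Nat.mod (Nat.shiftRight (Nat.land (Nat.add (Nat.land U (Nat.mul (Nat.xor S T)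
    0x1000100010001000100010001000100010001000100010001000100010001))
    0x7fff7fff7fff7fff7fff7fff7fff7fff7fff7fff7fff7fff7fff7fff7fff7fff)
    0x8000800080008000800080008000800080008000800080008000800080008000) 15) 65535)

/-- The contribution of one up-set. -/
def termR (U S m F t T c ws : ℕ) : ℕ :=
  Nat.mul (flc F (Nat.sub (Nat.sub t 1) c)) (Nat.pow 2 (Nat.add c (Nat.add ws (rootsR U S m T c))))

/-- The sum over the proper extensions of `T`; elements are triples (bit, mask of the elements
above, weight). -/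
def extR (U S m F t : ℕ) : List (ℕ × ℕ × ℕ) → ℕ → ℕ → ℕ → ℕ
  | [], _, _, _ => 0
  | (bit, u, w) :: l, T, c, ws =>
     bif Nat.ble (Nat.add c 2) t then
     bif Nat.beq (Nat.land u T) u then
      Nat.add (extR U S m F t l T c ws) (Nat.add
        (termR U S m F t (Nat.lor T bit) (Nat.add c 1) (Nat.add ws w))
          (extR U S m F t l (Nat.lor T bit) (Nat.add c 1) (Nat.add ws w)))
      else extR U S m F t l T c ws
      else 0

/-- The list of triples of a concrete state. -/
def elems (S U W : ℕ) : List (ℕ × ℕ × ℕ) :=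
  ([0, 1, 2, 3, 4, 5, 6, 7, 8, 9, 10, 11, 12, 13, 14].filter (fun i => Nat.testBit S i)).map
    (fun i => (2 ^ i, (U >>> (16 * i)) &&& S, (W >>> (4 * i)) % 16))

/-- The potential of a concrete state. -/
def leafValB (c : CS) : ℕ :=
  Nat.add (termR c.U c.S (elems c.S c.U c.W).length c.F c.t 0 0 0)
    (extR c.U c.S (elems c.S c.U c.W).length c.F c.t (elems c.S c.U c.W) 0 0 0)

/-- **The leaf test** (at most 15 solids). -/
def leafB (c : CS) : Bool :=
  Nat.ble 1 c.t && (Nat.ble (Nat.succ c.S) 32768 &&
    Nat.ble (Nat.succ (Nat.pow 2 (Nat.sub (Nat.add (Nat.add c.b c.t) 1) 64))) (leafValB c))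

/-! ### Soundness -/

section

/-- the set of a mask -/
def ms (S : Finset ℕ) (T : ℕ) : Finset ℕ := S.filter (fun i => T.testBit i = true)

theorem mem_ms {S : Finset ℕ} {T i : ℕ} : i ∈ ms S T ↔ i ∈ S ∧ T.testBit i = true := by
  simp [ms]

theorem ms_or {S : Finset ℕ} {T i : ℕ} (hi : i ∈ S) : ms S (T ||| 2 ^ i) = insert i (ms S T) := by
  ext j
  rw [mem_ms, mem_insert, mem_ms, Nat.testBit_or, Nat.testBit_two_pow]
  by_cases hij : i = j
  · subst hij
    simp [hi]
  · simp [hij, Ne.symm hij]

/-- triples -/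
def trip (w up : ℕ → ℕ) (i : ℕ) : ℕ × ℕ × ℕ := (2 ^ i, up i, w i)

theorem land_two_pow_eq_zero {T i : ℕ} : T &&& 2 ^ i = 0 ↔ T.testBit i = false := by
  constructor
  · intro h
    have h1 : (T &&& 2 ^ i).testBit i = false := by rw [h]; simp
    rw [Nat.testBit_and, Nat.testBit_two_pow_self, Bool.and_true] at h1
    exact h1
  · intro h
    refine Nat.eq_of_testBit_eq fun j => ?_
    rw [Nat.testBit_and, Nat.testBit_two_pow, Nat.zero_testBit]
    by_cases hij : i = j
    · subst hij
      simp [h]
    · simp [hij]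

/-- the hypotheses on the masks -/
structure Good (U S' m : ℕ) (S : Finset ℕ) (rel : ℕ → ℕ → Prop) (up : ℕ → ℕ) : Prop where
  lt : S' < 32768
  hS : ∀ i, i ∈ S ↔ S'.testBit i = true
  hrel : ∀ a ∈ S, ∀ b ∈ S, (rel a b ↔ crel U a b = true)
  hm : m ≤ S.card
  upS : ∀ a ∈ S, ∀ c ∈ S, (rel a c ↔ (up a).testBit c = true)

variable {S : Finset ℕ} {rel : ℕ → ℕ → Prop} {w : ℕ → ℕ} {up : ℕ → ℕ}

theorem rootsR_le {U S' m T c : ℕ} {S : Finset ℕ} {rel : ℕ → ℕ → Prop} (hS' : S' < 32768)
    (hS : ∀ i, i ∈ S ↔ S'.testBit i = true)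
    (hrel : ∀ a ∈ S, ∀ b ∈ S, (rel a b ↔ crel U a b = true)) (hm : m ≤ S.card)
    (hT : ∀ i, T.testBit i = true → i ∈ S) (hc : (ms S T).card = c) :
    rootsR U S' m T c ≤ roots rel (S \ ms S T) := by
  classical
  have hx : ∀ i, (S' ^^^ T).testBit i = true ↔ i ∈ S \ ms S T := by
    intro i
    rw [Nat.testBit_xor, mem_sdiff, mem_ms, hS]
    have h1 := hT i
    rw [hS] at h1
    cases h2 : S'.testBit i <;> cases h3 : T.testBit i <;> simp_all
  have hT' : T < 2 ^ 15 := by
    refine Nat.lt_pow_two_of_testBit T fun i hi => ?_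
    by_contra h
    have h1 := (hS i).1 (hT i (by simpa using h))
    rw [Nat.testBit_lt_two_pow (lt_of_lt_of_le hS' (by
      have : (32768 : ℕ) = 2 ^ 15 := by norm_num
      rw [this]
      exact Nat.pow_le_pow_right (by norm_num) hi))] at h1
    exact absurd h1 (by simp)
  have hM : S' ^^^ T < 32768 := by
    have : (32768 : ℕ) = 2 ^ 15 := by norm_num
    rw [this] at hS' ⊢
    exact Nat.xor_lt_two_pow hS' hT'
  have hl := lanes16 U (S' ^^^ T) hM
  have hdef : rootsR U S' m T c = m - c - cnt 16 U (S' ^^^ T) := by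
    rw [← hl]
    rfl
  rw [hdef]
  -- nonzero rows among the elements outside
  unfold roots
  have hcount : ((S \ ms S T).filter (fun x => ¬ ∀ z ∈ S \ ms S T, ¬ rel x z)).card ≤
      cnt 16 U (S' ^^^ T) := by
    rw [cnt_eq]
    refine card_le_card ?_
    intro x hx1
    rw [mem_filter] at hx1 ⊢
    obtain ⟨hxS, hx2⟩ := hx1
    push Not at hx2
    obtain ⟨z, hz, hxz⟩ := hx2
    have hxS' := (mem_sdiff.1 hxS).1
    have hzS := (mem_sdiff.1 hz).1
    have hlt : ∀ i ∈ S, i < 16 := by
      intro i hi
      by_contra h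
      have h1 := (hS i).1 hi
      rw [Nat.testBit_lt_two_pow (lt_of_lt_of_le hS' (by
        have : (32768 : ℕ) = 2 ^ 15 := by norm_num
        rw [this]
        exact Nat.pow_le_pow_right (by norm_num) (by omega)))] at h1
      exact absurd h1 (by simp)
    refine ⟨mem_range.2 (hlt x hxS'), ?_⟩
    intro h0
    have h1 : ((U >>> (16 * x)) % 65536 &&& (S' ^^^ T)).testBit z = true := by
      rw [Nat.testBit_and, (hx z).2 hz, Bool.and_true]
      have h16 : (65536 : ℕ) = 2 ^ 16 := by norm_num
      rw [h16, Nat.testBit_mod_two_pow, Nat.testBit_shiftRight]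
      have h2 := (hrel x hxS' z hzS).1 hxz
      unfold crel at h2
      rw [h2]
      simp [hlt z hzS]
    rw [h0] at h1
    simp at h1
  have hsplit : ((S \ ms S T).filter (fun x => ∀ z ∈ S \ ms S T, ¬ rel x z)).card +
      ((S \ ms S T).filter (fun x => ¬ ∀ z ∈ S \ ms S T, ¬ rel x z)).card =
      (S \ ms S T).card := by
    rw [card_filter_add_card_filter_not]
  have hsub : ms S T ⊆ S := filter_subset _ _
  have h4 : (S \ ms S T).card = S.card - c := by
    rw [card_sdiff_of_subset hsub, hc]
  omega

/-- the value of an up-set -/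
noncomputable def valL (S : Finset ℕ) (rel : ℕ → ℕ → Prop) (w : ℕ → ℕ) (F t : ℕ)
    (Q : Finset ℕ) : ℕ :=
  2 ^ Q.card * fl F (t - 1 - Q.card) * 2 ^ ((∑ x ∈ Q, w x) + roots rel (S \ Q))

theorem termR_le {U S' m : ℕ} (hg : Good U S' m S rel up)
    (F t T c ws : ℕ) (hT : ∀ i, T.testBit i = true → i ∈ S) (hc : (ms S T).card = c)
    (hw : ∑ x ∈ ms S T, w x = ws) :
    termR U S' m F t T c ws ≤ valL S rel w F t (ms S T) := by
  have h0 : termR U S' m F t T c ws =
      flc F (t - 1 - c) * 2 ^ (c + (ws + rootsR U S' m T c)) := by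
    simp only [termR, Nat.mul_eq, Nat.pow_eq, Nat.add_eq, Nat.sub_eq]
  rw [h0]
  unfold valL
  rw [hc, hw, flc_eq, pow_add]
  have h1 : 2 ^ (ws + rootsR U S' m T c) ≤ 2 ^ (ws + roots rel (S \ ms S T)) :=
    Nat.pow_le_pow_right (by norm_num) (Nat.add_le_add_left
      (rootsR_le hg.lt hg.hS hg.hrel hg.hm hT hc) _)
  calc fl F (t - 1 - c) * (2 ^ c * 2 ^ (ws + rootsR U S' m T c)) =
      2 ^ c * fl F (t - 1 - c) * 2 ^ (ws + rootsR U S' m T c) := by ring
    _ ≤ _ := Nat.mul_le_mul_left _ h1

/-- the up-sets which extend `M` properly by elements of `l` -/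
noncomputable def FamL (S : Finset ℕ) (rel : ℕ → ℕ → Prop) (t : ℕ) (l : List ℕ) (M : Finset ℕ) :
    Finset (Finset ℕ) := by
  classical
  exact S.powerset.filter (fun Q => PUp t S rel Q ∧ M ⊆ Q ∧ Q ≠ M ∧ ∀ a ∈ Q, a ∉ M → a ∈ l)

theorem mem_FamL {t : ℕ} {l : List ℕ} {M Q : Finset ℕ} : Q ∈ FamL S rel t l M ↔
    Q ⊆ S ∧ PUp t S rel Q ∧ M ⊆ Q ∧ Q ≠ M ∧ ∀ a ∈ Q, a ∉ M → a ∈ l := by
  classical
  simp [FamL]

theorem extR_le {U S' m : ℕ} (hg : Good U S' m S rel up) (F t : ℕ) :
    ∀ (l : List ℕ) (T c ws : ℕ), l.Nodup → (∀ a ∈ l, a ∈ S ∧ a ∉ ms S T) →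
    (∀ i, T.testBit i = true → i ∈ S) →
    PUp t S rel (ms S T) → (ms S T).card = c → ∑ x ∈ ms S T, w x = ws →
    extR U S' m F t (l.map (trip w up)) T c ws ≤
      ∑ Q ∈ FamL S rel t l (ms S T), valL S rel w F t Q := by
  classical
  intro l
  induction l with
  | nil => intro T c ws _ _ _ _ _ _; exact Nat.zero_le _
  | cons i l ih =>
    intro T c ws hndl hl hTS hUp hc hw
    rw [List.nodup_cons] at hndl
    set M := ms S T with hM
    have hiS : i ∈ S := (hl i List.mem_cons_self).1
    have hiM : i ∉ M := (hl i List.mem_cons_self).2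
    have h1 := ih T c ws hndl.2 (fun a ha => hl a (List.mem_cons_of_mem _ ha)) hTS hUp hc hw
    rw [← hM] at h1
    have hsub1 : FamL S rel t l M ⊆ FamL S rel t (i :: l) M := by
      intro Q hQ
      rw [mem_FamL] at hQ ⊢
      exact ⟨hQ.1, hQ.2.1, hQ.2.2.1, hQ.2.2.2.1, fun a ha h => List.mem_cons_of_mem _
        (hQ.2.2.2.2 a ha h)⟩
    rw [List.map_cons]
    have htrip : trip w up i = (2 ^ i, up i, w i) := rfl
    rw [htrip, extR]
    cases hcond1 : Nat.ble (Nat.add c 2) t with
    | false =>
      rw [cond_false]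
      exact Nat.zero_le _
    | true =>
      cases hcond2 : Nat.beq (Nat.land (up i) T) (up i) with
      | false =>
        rw [cond_true, cond_false]
        exact h1.trans (sum_le_sum_of_subset hsub1)
      | true =>
        rw [cond_true, cond_true]
        have hct : c + 2 ≤ t := Nat.le_of_ble_eq_true hcond1
        have hup := (land_eq_iff (up i) T).1 (Nat.eq_of_beq_eq_true hcond2)
        have hM' : ms S (T ||| 2 ^ i) = insert i M := ms_or hiS
        have hTS' : ∀ a, (T ||| 2 ^ i).testBit a = true → a ∈ S := by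
          intro a ha
          rw [Nat.testBit_or, Nat.testBit_two_pow, Bool.or_eq_true] at ha
          rcases ha with ha | ha
          · exact hTS a ha
          · rw [← of_decide_eq_true ha]
            exact hiS
        have hUp' : PUp t S rel (insert i M) := by
          refine ⟨?_, ?_⟩
          · rw [card_insert_of_notMem hiM, hc]
            omega
          · intro a ha z hz haz
            rcases mem_insert.1 ha with rfl | ha
            · refine mem_insert_of_mem ?_
              rw [hM, mem_ms]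
              exact ⟨hz, hup z ((hg.upS _ hiS z hz).1 haz)⟩
            · exact mem_insert_of_mem (hUp.2 a ha z hz haz)
        have hc' : (insert i M).card = c + 1 := by
          rw [card_insert_of_notMem hiM, hc]
        have hw' : ∑ x ∈ insert i M, w x = ws + w i := by
          rw [sum_insert hiM, hw, add_comm]
        have h2 := ih (T ||| 2 ^ i) (c + 1) (ws + w i) hndl.2
          (by
            intro a ha
            refine ⟨(hl a (List.mem_cons_of_mem _ ha)).1, ?_⟩
            rw [hM']
            intro h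
            rcases mem_insert.1 h with rfl | h
            · exact hndl.1 ha
            · exact (hl a (List.mem_cons_of_mem _ ha)).2 h)
          hTS' (by rw [hM']; exact hUp') (by rw [hM', hc']) (by rw [hM', hw'])
        have h3 := termR_le (w := w) hg F t (T ||| 2 ^ i) (c + 1) (ws + w i) hTS'
          (by rw [hM', hc']) (by rw [hM', hw'])
        rw [hM'] at h2 h3
        have hnot1 : insert i M ∉ FamL S rel t l (insert i M) := by
          intro h
          exact (mem_FamL.1 h).2.2.2.1 rfl
        have hdisj : Disjoint (FamL S rel t l M)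
            (insert (insert i M) (FamL S rel t l (insert i M))) := by
          rw [disjoint_left]
          intro Q hQ hQ'
          have hiQ : i ∈ Q := by
            rcases mem_insert.1 hQ' with rfl | hQ'
            · exact mem_insert_self i M
            · exact (mem_FamL.1 hQ').2.2.1 (mem_insert_self i M)
          exact hndl.1 ((mem_FamL.1 hQ).2.2.2.2 i hiQ hiM)
        have hsub : FamL S rel t l M ∪ insert (insert i M) (FamL S rel t l (insert i M)) ⊆
            FamL S rel t (i :: l) M := by
          refine union_subset hsub1 ?_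
          intro Q hQ
          rcases mem_insert.1 hQ with rfl | hQ
          · rw [mem_FamL]
            refine ⟨?_, hUp', subset_insert i M, ?_, ?_⟩
            · intro a ha
              rcases mem_insert.1 ha with rfl | ha
              · exact hiS
              · rw [hM, mem_ms] at ha
                exact ha.1
            · intro h
              exact hiM (h ▸ mem_insert_self i M)
            · intro a ha haM
              rcases mem_insert.1 ha with rfl | ha
              · exact List.mem_cons_self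
              · exact absurd ha haM
          · rw [mem_FamL] at hQ ⊢
            refine ⟨hQ.1, hQ.2.1, (subset_insert i M).trans hQ.2.2.1, ?_, ?_⟩
            · rintro rfl
              exact hiM (hQ.2.2.1 (mem_insert_self i _))
            · intro a ha haM
              by_cases hai : a = i
              · rw [hai]
                exact List.mem_cons_self
              · exact List.mem_cons_of_mem _ (hQ.2.2.2.2 a ha (by
                  rw [mem_insert]
                  tauto))
        calc _ ≤ (∑ Q ∈ FamL S rel t l M, valL S rel w F t Q) +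
              (valL S rel w F t (insert i M) +
              ∑ Q ∈ FamL S rel t l (insert i M), valL S rel w F t Q) :=
              Nat.add_le_add h1 (Nat.add_le_add h3 h2)
          _ = ∑ Q ∈ FamL S rel t l M ∪ insert (insert i M) (FamL S rel t l (insert i M)),
              valL S rel w F t Q := by
              rw [sum_union hdisj, sum_insert hnot1]
          _ ≤ _ := sum_le_sum_of_subset hsub

theorem leafR_le {U S' m : ℕ} (hg : Good U S' m S rel up) {idx : List ℕ} (hnd : idx.Nodup)
    (hidx : ∀ i ∈ idx, i ∈ S) (F t : ℕ) (ht : 1 ≤ t) : termR U S' m F t 0 0 0 +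
      extR U S' m F t (idx.map (trip w up)) 0 0 0 ≤ leafSum t S rel w F := by
  classical
  have hM : ms S 0 = ∅ := by
    ext a
    simp [mem_ms]
  have hUp : PUp t S rel (ms S 0) := by
    rw [hM]
    exact ⟨by rw [card_empty]; omega, by simp⟩
  have h1 := extR_le (w := w) hg F t idx 0 0 0 hnd
    (fun a ha => ⟨hidx a ha, by rw [hM]; simp⟩) (by simp) hUp (by rw [hM]; simp)
    (by rw [hM]; simp)
  have h2 := termR_le (w := w) hg F t 0 0 0 (by simp) (by rw [hM]; simp) (by rw [hM]; simp)
  rw [hM] at h1 h2 hUp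
  have hnot : ∅ ∉ FamL S rel t idx ∅ := by
    intro h
    exact (mem_FamL.1 h).2.2.2.1 rfl
  calc _ ≤ valL S rel w F t ∅ + ∑ Q ∈ FamL S rel t idx ∅, valL S rel w F t Q :=
        Nat.add_le_add h2 h1
    _ = ∑ Q ∈ insert ∅ (FamL S rel t idx ∅), valL S rel w F t Q := by rw [sum_insert hnot]
    _ ≤ _ := by
        unfold leafSum
        refine sum_le_sum_of_subset ?_
        intro Q hQ
        rw [mem_filter, mem_powerset]
        rcases mem_insert.1 hQ with rfl | hQ
        · exact ⟨empty_subset _, hUp⟩
        · rw [mem_FamL] at hQ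
          exact ⟨hQ.1, hQ.2.1⟩

end

/-- Soundness of the leaf test. -/
theorem leafB_sound {c : CS} (h : leafB c = true) : Leaf c.dec := by
  unfold leafB at h
  rw [Bool.and_eq_true, Bool.and_eq_true] at h
  have h1 := Nat.le_of_ble_eq_true h.1
  have hlt := Nat.le_of_ble_eq_true h.2.1
  have h2 := Nat.le_of_ble_eq_true h.2.2
  have hlt' : c.S < 32768 := hlt
  set idx := [0, 1, 2, 3, 4, 5, 6, 7, 8, 9, 10, 11, 12, 13, 14].filter
    (fun i => Nat.testBit c.S i) with hidx
  have hlt15 : ∀ i, c.S.testBit i = true → i < 15 := by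
    intro i hi
    by_contra h
    rw [Nat.testBit_lt_two_pow (lt_of_lt_of_le hlt' (by
      have : (32768 : ℕ) = 2 ^ 15 := by norm_num
      rw [this]
      exact Nat.pow_le_pow_right (by norm_num) (by omega)))] at hi
    exact absurd hi (by simp)
  have hmem : ∀ i, i ∈ idx ↔ c.S.testBit i = true := by
    intro i
    rw [hidx, List.mem_filter]
    have : i ∈ [0, 1, 2, 3, 4, 5, 6, 7, 8, 9, 10, 11, 12, 13, 14] ↔ i < 15 := by
      simp only [List.mem_cons, List.not_mem_nil, or_false]
      omega
    rw [this]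
    exact ⟨fun h => h.2, fun h => ⟨hlt15 i h, h⟩⟩
  have hdS : ∀ i, i ∈ c.dec.S ↔ c.S.testBit i = true := by
    intro i
    rw [CS.mem_dec]
    exact ⟨fun h => h.2, fun h => ⟨by have := hlt15 i h; omega, h⟩⟩
  have hnd : idx.Nodup := by
    rw [hidx]
    refine List.Nodup.filter _ ?_
    decide
  have hlen : idx.length ≤ c.dec.S.card := by
    rw [← List.toFinset_card_of_nodup hnd]
    refine card_le_card ?_
    intro i hi
    rw [List.mem_toFinset, hmem] at hi
    exact (hdS i).2 hi
  have hel : elems c.S c.U c.W = idx.map (trip (cw c.W) (fun i => (c.U >>> (16 * i)) &&& c.S)) := rfl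
  have hg : Good c.U c.S (elems c.S c.U c.W).length c.dec.S c.dec.rel
      (fun i => (c.U >>> (16 * i)) &&& c.S) := by
    refine ⟨hlt', hdS, fun a _ b _ => Iff.rfl, ?_, ?_⟩
    · rw [hel, List.length_map]
      exact hlen
    · intro a _ z hz
      show crel c.U a z = true ↔ _
      rw [Nat.testBit_and, Nat.testBit_shiftRight, (hdS z).1 hz]
      simp [crel]
  have h3 := leafR_le (w := cw c.W) hg hnd (fun i hi => (hdS i).2 ((hmem i).1 hi)) c.F c.t h1
  rw [← hel] at h3
  have h4 : (c.dec.b + c.dec.t + 1).toNat = c.b + c.t + 1 - 64 := by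
    show ((c.b : ℤ) - 64 + (c.t : ℤ) + 1).toNat = _
    omega
  unfold Leaf
  rw [h4]
  have h5 : leafSum c.dec.t c.dec.S c.dec.rel c.dec.w c.dec.F =
    leafSum c.t c.dec.S c.dec.rel (cw c.W) c.F := rfl
  rw [h5]
  have h6 : Nat.succ (2 ^ (c.b + c.t + 1 - 64)) ≤ leafValB c := h2
  have h7 : leafValB c = termR c.U c.S (elems c.S c.U c.W).length c.F c.t 0 0 0 +
    extR c.U c.S (elems c.S c.U c.W).length c.F c.t (elems c.S c.U c.W) 0 0 0 := rfl
  omega

end Pool.Agent.Sel
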